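import Mathlib

/-!
# Degree growth `n⁴` for a birational self-map of `P³`

Let `E : y² = x³ + k`, `k` varying.  Triples of points `(P₁, P₂, P₃)` on `E` modulo the scaling
`(x, y, k) ↦ (s² x, s³ y, s⁶ k)` form the threefold `E_ω³ / μ₆`, which is rational: coordinates
`[W : A : C : T]` are given by `A / W = x₂ / x₁`, `C / W = x₃ / x₁` and
`T / W = ((y₃ - y₁) / (x₃ - x₁)) / ((y₂ - y₁) / (x₂ - x₁))`.  The map
`(P₁, P₂, P₃) ↦ (P₁, P₁ + P₂, P₃ - P₁ - P₂)` is a birational self-map `f` of `P³`; it is unipotent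
with one Jordan block of size three, so the degree of `f ^ n` grows like the height of
`n² P₁ / 2`, that is like `n⁴`.
-/

set_option autoImplicit false
set_option linter.unusedSectionVars false

namespace Pool.Agent.Results.MP_55ef7c_ag.DegreeGrowth

/-! ### Definitions used in the statement -/

section definitions

open MvPolynomial

variable {K : Type*} [Field K] {N : ℕ}

/-- `[f 0 : ... : f N]` is a rational self-map of `P^N` of degree `d`, written as in the problem: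
`N + 1` forms in `X 0, ..., X N` over `K`, homogeneous of one common degree `d` and with no
nonconstant common factor (so they are not all zero). -/
structure IsMap (d : ℕ) (f : Fin (N + 1) → MvPolynomial (Fin (N + 1)) K) : Prop where
  homog : ∀ i, (f i).IsHomogeneous d
  coprime : ∀ q : MvPolynomial (Fin (N + 1)) K, (∀ i, q ∣ f i) → IsUnit q

/-- The formal iterates of `f` (substitution of forms, common factors not yet removed):
`iter f 0 = [X 0 : ... : X N]` and `iter f (n + 1) = f (iter f n)`. -/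
noncomputable def iter (f : Fin (N + 1) → MvPolynomial (Fin (N + 1)) K) :
    ℕ → Fin (N + 1) → MvPolynomial (Fin (N + 1)) K
  | 0 => X
  | n + 1 => fun i => bind₁ (iter f n) (f i)

/-- `g` is the `n`-th iterate of the rational map `f`, common factors removed, and `e` is its
degree. -/
structure IsIterate (f : Fin (N + 1) → MvPolynomial (Fin (N + 1)) K) (n e : ℕ)
    (g : Fin (N + 1) → MvPolynomial (Fin (N + 1)) K) : Prop where
  isMap : IsMap e g
  eq : ∃ q, q ≠ 0 ∧ ∀ i, iter f n i = q * g i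

/-- `F ≍ G`: there are constants `c₁, c₂, c₃ > 0` with `c₁ F(n) ≤ G(n) ≤ c₂ F(n)` for all
`n ≥ c₃`. -/
def Asymp (F G : ℕ → ℝ) : Prop :=
  ∃ c₁ c₂ c₃ : ℝ, 0 < c₁ ∧ 0 < c₂ ∧ 0 < c₃ ∧
    ∀ n : ℕ, c₃ ≤ (n : ℝ) → c₁ * F n ≤ G n ∧ G n ≤ c₂ * F n

end definitions

/-! ### Forms, common factors and algebraic independence -/

section partForms

open MvPolynomial

section hom

variable {K : Type*} [Field K] {σ : Type*}

lemma aeval_mul_homog {S : Type*} [CommRing S] [Algebra K S] {p : MvPolynomial σ K} {n : ℕ}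
    (hp : p.IsHomogeneous n) (c : S) (v : σ → S) :
    aeval (fun i => c * v i) p = c ^ n * aeval v p := by
  classical
  rw [aeval_def, eval₂_eq, aeval_def, eval₂_eq, Finset.mul_sum]
  refine Finset.sum_congr rfl fun d hd => ?_
  simp only [mul_pow]
  rw [Finset.prod_mul_distrib, Finset.prod_pow_eq_pow_sum,
    ← hp.degree_eq_sum_deg_support hd]
  ring

/-- `p ↦ ∑ p_d s^d`. -/
noncomputable def theta : MvPolynomial σ K →ₐ[K] Polynomial (MvPolynomial σ K) :=
  aeval (fun i => Polynomial.X * Polynomial.C (X i))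

lemma theta_homog {p : MvPolynomial σ K} {n : ℕ} (hp : p.IsHomogeneous n) :
    theta p = Polynomial.X ^ n * Polynomial.C p := by
  rw [theta, aeval_mul_homog hp]
  congr 1
  have : (Polynomial.CAlgHom (R := K) (A := MvPolynomial σ K)).comp
      (aeval (X : σ → MvPolynomial σ K)) = aeval (fun i => Polynomial.C (X i)) := by
    ext i : 1
    simp
  rw [← this]
  simp

lemma theta_coeff (p : MvPolynomial σ K) (d : ℕ) :
    (theta p).coeff d = homogeneousComponent d p := by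
  classical
  have h : theta p = ∑ e ∈ Finset.range (p.totalDegree + 1),
      Polynomial.X ^ e * Polynomial.C (homogeneousComponent e p) := by
    conv_lhs => rw [← sum_homogeneousComponent p, map_sum]
    exact Finset.sum_congr rfl fun e _ => theta_homog (homogeneousComponent_isHomogeneous e p)
  rw [h, Polynomial.finsetSum_coeff]
  have h2 : ∀ e, (Polynomial.X ^ e * Polynomial.C (homogeneousComponent e p)).coeff d
      = if e = d then homogeneousComponent d p else 0 := by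
    intro e
    rw [Polynomial.coeff_mul_C, Polynomial.coeff_X_pow]
    split_ifs with h1 h2 h3
    · rw [h1, one_mul]
    · exact absurd h1.symm h2
    · exact absurd h3.symm h1
    · simp
  simp only [h2]
  rw [Finset.sum_ite_eq']
  split_ifs with h3
  · rfl
  · rw [Finset.mem_range, not_lt] at h3
    rw [homogeneousComponent_eq_zero _ _ (by omega)]

lemma theta_injective : Function.Injective (theta (K := K) (σ := σ)) := by
  intro p q h
  rw [← sub_eq_zero]
  have h0 : theta (p - q) = 0 := by rw [map_sub, h, sub_self]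
  rw [← sum_homogeneousComponent (p - q)]
  refine Finset.sum_eq_zero fun e _ => ?_
  rw [← theta_coeff, h0, Polynomial.coeff_zero]

lemma homog_of_mul {p q : MvPolynomial σ K} {n : ℕ} (h : (p * q).IsHomogeneous n)
    (h0 : p * q ≠ 0) : p.IsHomogeneous p.totalDegree := by
  have hp0 : p ≠ 0 := left_ne_zero_of_mul h0
  have hq0 : q ≠ 0 := right_ne_zero_of_mul h0
  have hp : theta p ≠ 0 := fun e => hp0 (theta_injective (by rw [e, map_zero]))
  have hq : theta q ≠ 0 := fun e => hq0 (theta_injective (by rw [e, map_zero]))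
  have hpq : theta p * theta q = Polynomial.C (p * q) * Polynomial.X ^ n := by
    rw [← map_mul, theta_homog h, mul_comm]
  have h1 : (theta p).natDegree + (theta q).natDegree = n := by
    rw [← Polynomial.natDegree_mul hp hq, hpq, Polynomial.natDegree_C_mul_X_pow n _ h0]
  have h2 : (theta p).natTrailingDegree + (theta q).natTrailingDegree = n := by
    rw [← Polynomial.natTrailingDegree_mul hp hq, hpq, Polynomial.C_mul_X_pow_eq_monomial,
      Polynomial.natTrailingDegree_monomial h0]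
  have h3 := Polynomial.natTrailingDegree_le_natDegree (theta p)
  have h4 := Polynomial.natTrailingDegree_le_natDegree (theta q)
  have h5 : (theta p).natTrailingDegree = (theta p).natDegree := by omega
  have key : p = homogeneousComponent (theta p).natDegree p := by
    have : theta p = theta (homogeneousComponent (theta p).natDegree p) := by
      rw [theta_homog (homogeneousComponent_isHomogeneous _ p), ← theta_coeff]
      ext1 d
      rw [Polynomial.coeff_mul_C, Polynomial.coeff_X_pow]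
      split_ifs with hd
      · rw [hd, one_mul]
      · rw [zero_mul]
        rcases lt_or_gt_of_ne hd with hlt | hgt
        · exact Polynomial.coeff_eq_zero_of_lt_natTrailingDegree (by omega)
        · exact Polynomial.coeff_eq_zero_of_natDegree_lt hgt
    exact theta_injective this
  have h6 : p.IsHomogeneous (theta p).natDegree := by
    rw [key]
    convert homogeneousComponent_isHomogeneous _ p using 2
    rw [← key]
  rwa [h6.totalDegree hp0]

lemma homog_of_mul_right {p q : MvPolynomial σ K} {n : ℕ} (h : (p * q).IsHomogeneous n)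
    (h0 : p * q ≠ 0) : q.IsHomogeneous q.totalDegree :=
  homog_of_mul (p := q) (q := p) (by rwa [mul_comm]) (by rwa [mul_comm])

end hom

section maps

variable {K : Type*} [Field K] {N : ℕ}

lemma IsMap.exists_ne {d : ℕ} {f : Fin (N + 1) → MvPolynomial (Fin (N + 1)) K}
    (h : IsMap d f) : ∃ i, f i ≠ 0 := by
  by_contra hc
  push Not at hc
  have := h.coprime 0 (fun i => by rw [hc i])
  exact not_isUnit_zero this

lemma exists_reduced {D : ℕ} {H : Fin (N + 1) → MvPolynomial (Fin (N + 1)) K}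
    (hH : ∀ i, (H i).IsHomogeneous D) (hne : ∃ i, H i ≠ 0) :
    ∃ (e : ℕ) (g : Fin (N + 1) → MvPolynomial (Fin (N + 1)) K)
      (q : MvPolynomial (Fin (N + 1)) K), IsMap e g ∧ q ≠ 0 ∧ q.IsHomogeneous q.totalDegree ∧
        ∀ i, H i = q * g i := by
  classical
  let _ : StrongNormalizationMonoid (MvPolynomial (Fin (N + 1)) K) :=
    UniqueFactorizationMonoid.strongNormalizationMonoid
  let _ : NormalizedGCDMonoid (MvPolynomial (Fin (N + 1)) K) :=
    UniqueFactorizationMonoid.toNormalizedGCDMonoid _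
  obtain ⟨g, hg, hg1⟩ := Finset.extract_gcd H (Finset.univ_nonempty (α := Fin (N + 1)))
  set q := Finset.univ.gcd H with hq
  have hq0 : q ≠ 0 := by
    obtain ⟨i, hi⟩ := hne
    intro h
    apply hi
    rw [hg i (Finset.mem_univ i), h, zero_mul]
  obtain ⟨i0, hi0⟩ := hne
  have hgi0 : g i0 ≠ 0 := by
    intro h
    apply hi0
    rw [hg i0 (Finset.mem_univ i0), h, mul_zero]
  have hqh : q.IsHomogeneous q.totalDegree := by
    refine homog_of_mul (q := g i0) (n := D) ?_ (mul_ne_zero hq0 hgi0)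
    rw [← hg i0 (Finset.mem_univ i0)]
    exact hH i0
  refine ⟨D - q.totalDegree, g, q, ⟨?_, ?_⟩, hq0, hqh, fun i => hg i (Finset.mem_univ i)⟩
  · intro i
    by_cases hi : g i = 0
    · rw [hi]; exact isHomogeneous_zero _ _ _
    · have h1 : (q * g i).IsHomogeneous D := by rw [← hg i (Finset.mem_univ i)]; exact hH i
      have h2 := homog_of_mul_right h1 (mul_ne_zero hq0 hi)
      have h3 : D = q.totalDegree + (g i).totalDegree :=
        h1.inj_right (hqh.mul h2) (mul_ne_zero hq0 hi)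
      have h4 : D - q.totalDegree = (g i).totalDegree := by omega
      rw [h4]; exact h2
  · intro r hr
    have : r ∣ Finset.univ.gcd g := Finset.dvd_gcd fun i _ => hr i
    rw [hg1] at this
    exact isUnit_of_dvd_one this

lemma IsMap.factor {e : ℕ} {g S : Fin (N + 1) → MvPolynomial (Fin (N + 1)) K}
    (hg : IsMap e g) (hS : ∃ i, S i ≠ 0) (hprop : ∀ i j, S i * g j = S j * g i) :
    ∃ r, r ≠ 0 ∧ ∀ i, S i = r * g i := by
  classical
  let _ : StrongNormalizationMonoid (MvPolynomial (Fin (N + 1)) K) :=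
    UniqueFactorizationMonoid.strongNormalizationMonoid
  let _ : NormalizedGCDMonoid (MvPolynomial (Fin (N + 1)) K) :=
    UniqueFactorizationMonoid.toNormalizedGCDMonoid _
  obtain ⟨j0, hj0⟩ := hg.exists_ne
  have hunit : IsUnit (Finset.univ.gcd g) :=
    hg.coprime _ fun i => Finset.gcd_dvd (Finset.mem_univ i)
  have h1 : g j0 ∣ Finset.univ.gcd (fun i => S j0 * g i) := by
    refine Finset.dvd_gcd fun i _ => ?_
    rw [← hprop i j0]
    exact Dvd.intro_left _ rfl
  have h2 : g j0 ∣ S j0 := by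
    have h3 := (Finset.gcd_mul_left' Finset.univ g (S j0)).dvd
    exact h1.trans (h3.trans (hunit.dvd_mul_right.mp dvd_rfl))
  obtain ⟨r, hr⟩ := h2
  have hS0 : S j0 ≠ 0 := by
    intro h0
    obtain ⟨i, hi⟩ := hS
    have := hprop i j0
    rw [h0, zero_mul] at this
    rcases mul_eq_zero.mp this with h | h
    · exact hi h
    · exact hj0 h
  refine ⟨r, ?_, ?_⟩
  · intro h
    apply hS0
    rw [hr, h, mul_zero]
  · intro i
    have h4 := hprop i j0
    rw [hr] at h4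
    have : (S i - r * g i) * g j0 = 0 := by linear_combination h4
    rcases mul_eq_zero.mp this with h | h
    · exact sub_eq_zero.mp h
    · exact absurd h hj0

lemma IsMap.degree_le {e s : ℕ} {g S : Fin (N + 1) → MvPolynomial (Fin (N + 1)) K}
    (hg : IsMap e g) (hS : ∃ i, S i ≠ 0) (hprop : ∀ i j, S i * g j = S j * g i)
    (hs : ∀ i, (S i).totalDegree ≤ s) : e ≤ s := by
  obtain ⟨r, hr0, hr⟩ := hg.factor hS hprop
  obtain ⟨j, hj⟩ := hg.exists_ne
  have h1 : (S j).totalDegree = r.totalDegree + e := by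
    rw [hr j, totalDegree_mul_of_isDomain hr0 hj, (hg.homog j).totalDegree hj]
  have := hs j
  omega

end maps

section indep

variable {K : Type*} [Field K] {σ : Type*}

lemma component_aeval {v : σ → MvPolynomial σ K} {m : ℕ} (hv : ∀ i, (v i).IsHomogeneous m)
    (hm : 1 ≤ m) (p : MvPolynomial σ K) (d : ℕ) :
    homogeneousComponent (m * d) (aeval v p) = aeval v (homogeneousComponent d p) := by
  classical
  conv_lhs => rw [← sum_homogeneousComponent p, map_sum, map_sum]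
  have h : ∀ e, homogeneousComponent (m * d) (aeval v (homogeneousComponent e p))
      = if e = d then aeval v (homogeneousComponent d p) else 0 := by
    intro e
    have h1 : (aeval v (homogeneousComponent e p)).IsHomogeneous (m * e) :=
      (homogeneousComponent_isHomogeneous e p).aeval v hv
    rw [homogeneousComponent_of_mem ((mem_homogeneousSubmodule _ _).mpr h1)]
    by_cases he : e = d
    · subst he; simp
    · rw [if_neg he, if_neg]
      intro h2
      exact he (Nat.eq_of_mul_eq_mul_left (by omega) h2).symm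
  simp only [h]
  rw [Finset.sum_ite_eq']
  split_ifs with h3
  · rfl
  · rw [Finset.mem_range, not_lt] at h3
    rw [homogeneousComponent_eq_zero _ _ (by omega), map_zero]

lemma indep_mul_iff {v : σ → MvPolynomial σ K} {m r : ℕ} (hv : ∀ i, (v i).IsHomogeneous m)
    (hm : 1 ≤ m) {q : MvPolynomial σ K} (hq : q.IsHomogeneous r) (hq0 : q ≠ 0) :
    AlgebraicIndependent K (fun i => q * v i) ↔ AlgebraicIndependent K v := by
  have hv2 : ∀ i, (q * v i).IsHomogeneous (r + m) := fun i => hq.mul (hv i)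
  have key : ∀ p : MvPolynomial σ K, aeval (fun i => q * v i) p = 0 ↔ aeval v p = 0 := by
    intro p
    have h1 : ∀ (w : σ → MvPolynomial σ K) (M : ℕ), 1 ≤ M → (∀ i, (w i).IsHomogeneous M) →
        (aeval w p = 0 ↔ ∀ d, aeval w (homogeneousComponent d p) = 0) := by
      intro w M hM hw
      constructor
      · intro h d
        rw [← component_aeval hw hM, h, map_zero]
      · intro h
        rw [← sum_homogeneousComponent p, map_sum]
        exact Finset.sum_eq_zero fun d _ => h d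
    rw [h1 _ (r + m) (by omega) hv2, h1 v m hm hv]
    refine forall_congr' fun d => ?_
    rw [aeval_mul_homog (homogeneousComponent_isHomogeneous d p)]
    rw [mul_eq_zero]
    constructor
    · rintro (h | h)
      · exact absurd h (pow_ne_zero _ hq0)
      · exact h
    · exact Or.inr
  rw [algebraicIndependent_iff, algebraicIndependent_iff]
  exact forall_congr' fun p => by rw [key]

end indep

section iter

variable {K : Type*} [Field K] {N : ℕ}

lemma iter_indep {f : Fin (N + 1) → MvPolynomial (Fin (N + 1)) K}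
    (hf : AlgebraicIndependent K f) (n : ℕ) : AlgebraicIndependent K (iter f n) := by
  induction n with
  | zero =>
    have : iter f 0 = X := rfl
    rw [this]
    exact algebraicIndependent_X _ _
  | succ n ih =>
    have h1 : (aeval (iter f (n + 1)) : MvPolynomial (Fin (N + 1)) K →ₐ[K] _)
        = (aeval (iter f n)).comp (aeval f) := by
      ext i : 1
      rw [aeval_X, AlgHom.comp_apply, aeval_X]
      rfl
    unfold AlgebraicIndependent at *
    rw [h1, AlgHom.coe_comp]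
    exact ih.comp hf

lemma iter_homog {f : Fin (N + 1) → MvPolynomial (Fin (N + 1)) K} {d : ℕ}
    (hf : ∀ i, (f i).IsHomogeneous d) (n : ℕ) : ∀ i, (iter f n i).IsHomogeneous (d ^ n) := by
  induction n with
  | zero => intro i; simpa [iter] using isHomogeneous_X K i
  | succ n ih =>
    intro i
    have := (hf i).aeval (iter f n) ih
    rw [pow_succ]
    exact this

lemma IsIterate.unique {f g g' : Fin (N + 1) → MvPolynomial (Fin (N + 1)) K} {n e e' : ℕ}
    (h : IsIterate f n e g) (h' : IsIterate f n e' g') : e = e' := by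
  have key : ∀ {g g' : Fin (N + 1) → MvPolynomial (Fin (N + 1)) K} {e e' : ℕ},
      IsIterate f n e g → IsIterate f n e' g' → e ≤ e' := by
    intro g g' e e' h h'
    obtain ⟨q, hq, hqe⟩ := h.eq
    obtain ⟨q', hq', hqe'⟩ := h'.eq
    refine h.isMap.degree_le (S := g') h'.isMap.exists_ne ?_ ?_
    · intro i j
      have h1 := hqe i
      have h2 := hqe j
      rw [hqe' i] at h1
      rw [hqe' j] at h2
      have h3 : q * q' * (g' i * g j) = q * q' * (g' j * g i) := by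
        linear_combination (q * g j) * h1 - (q * g i) * h2
      exact mul_left_cancel₀ (mul_ne_zero hq hq') h3
    · intro i
      exact (h'.isMap.homog i).totalDegree_le
  exact le_antisymm (key h h') (key h' h)

lemma exists_iterate {f : Fin (N + 1) → MvPolynomial (Fin (N + 1)) K} {d : ℕ}
    (hf : ∀ i, (f i).IsHomogeneous d) (hi : AlgebraicIndependent K f) (n : ℕ) :
    ∃ e g, IsIterate f n e g := by
  have h1 := iter_indep hi n
  have hne : ∃ i, iter f n i ≠ 0 := ⟨0, h1.ne_zero 0⟩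
  obtain ⟨e, g, q, hg, hq, -, hqe⟩ := exists_reduced (iter_homog hf n) hne
  exact ⟨e, g, hg, q, hq, hqe⟩

/-- the reduced form of an algebraically independent tuple is not constant -/
lemma degree_pos_of_indep {H g : Fin (N + 1) → MvPolynomial (Fin (N + 1)) K} {e : ℕ}
    {q : MvPolynomial (Fin (N + 1)) K} (hN : 1 ≤ N) (hH : AlgebraicIndependent K H)
    (hg : IsMap e g) (hq : ∀ i, H i = q * g i) : 1 ≤ e := by
  by_contra hc
  have he : e = 0 := by omega
  subst he
  have hc : ∀ i, ∃ c : K, g i = C c := by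
    intro i
    have := (totalDegree_eq_zero_iff_eq_C).mp (le_antisymm (hg.homog i).totalDegree_le bot_le)
    exact ⟨_, this⟩
  choose c hc using hc
  have hrel : ∀ i j, C (c j) * X i - C (c i) * X j = (0 : MvPolynomial (Fin (N + 1)) K) := by
    intro i j
    apply hH
    simp only [map_sub, map_mul, aeval_X, map_zero, algHom_C, hq, hc, algebraMap_eq]
    ring
  have hc0 : ∀ j, c j = 0 := by
    intro j
    obtain ⟨i, hij⟩ : ∃ i : Fin (N + 1), i ≠ j := by
      by_cases hj : j = 0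
      · exact ⟨Fin.last N, by
          rw [hj]; intro h
          have := congrArg Fin.val h
          simp at this
          omega⟩
      · exact ⟨0, fun h => hj h.symm⟩
    have h1 := congrArg (coeff (Finsupp.single i 1)) (hrel i j)
    rw [coeff_sub, coeff_C_mul, coeff_C_mul, coeff_X, coeff_X, coeff_zero, if_pos rfl,
      if_neg] at h1
    · simpa using h1
    · intro h
      exact hij ((Finsupp.single_left_inj one_ne_zero).mp h).symm
  obtain ⟨i, hi⟩ := hg.exists_ne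
  apply hi
  rw [hc i, hc0 i, C_0]

end iter

end partForms

/-! ### The elementary maps -/

section partElem

open MvPolynomial

section elem

variable {R : Type*} [CommRing R]

def Nh (v : Fin 4 → R) : R := v 3 * (v 0 * (v 1 - v 0) - v 3 * (v 2 - v 0))

def Dh (v : Fin 4 → R) : R :=
  v 3 * (v 0 ^ 2 + v 1 * v 0 + v 1 ^ 2) - v 0 * (v 0 ^ 2 + v 2 * v 0 + v 2 ^ 2)

/-- `(P₁, P₂, P₃) ↦ (P₁, -P₁-P₂, P₃)` -/
def Fi (v : Fin 4 → R) : Fin 4 → R :=
  ![v 0 * Nh v, v 0 * Dh v - (v 0 + v 1) * Nh v, v 2 * Nh v, v 3 * Nh v]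

/-- `(P₁, P₂, P₃) ↦ (P₂, P₁, P₃)` -/
def Fr (v : Fin 4 → R) : Fin 4 → R :=
  ![v 1 * v 0 * (v 2 - v 1), v 0 ^ 2 * (v 2 - v 1), v 2 * v 0 * (v 2 - v 1),
    v 1 * (v 3 * (v 2 - v 0) - v 0 * (v 1 - v 0))]

/-- `(P₁, P₂, P₃) ↦ (P₁, P₃, P₂)` -/
def Ft (v : Fin 4 → R) : Fin 4 → R :=
  ![v 0 * v 3, v 2 * v 3, v 1 * v 3, v 0 ^ 2]

def Eh (v : Fin 4 → R) : R := v 3 * (v 0 ^ 2 + v 1 * v 0 + v 1 ^ 2) * (v 2 - v 0)

def Gh (v : Fin 4 → R) : R := (v 0 ^ 2 + v 2 * v 0 + v 2 ^ 2) * (v 1 - v 0) * v 0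

/-- `(P₁, P₂, P₃) ↦ (-P₁, P₂, P₃)` -/
def Fs (v : Fin 4 → R) : Fin 4 → R :=
  ![v 0 * Eh v, v 1 * Eh v, v 2 * Eh v, v 0 * Gh v]

/-- the whole map `(P₁, P₂, P₃) ↦ (P₁, P₁ + P₂, P₃ - P₁ - P₂)` -/
def FF (v : Fin 4 → R) : Fin 4 → R := Fs (Fr (Ft (Fi (Ft (Fr (Fi v))))))

lemma Fi_invol (v : Fin 4 → R) (j : Fin 4) : Fi (Fi v) j = (Nh v * Nh (Fi v)) * v j := by
  fin_cases j
  · simp [Fi]; ring
  · simp [Fi, Nh, Dh]; ring
  · simp [Fi]; ring
  · simp [Fi]; ring

lemma Fr_invol (v : Fin 4 → R) (j : Fin 4) :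
    Fr (Fr v) j = (v 0 ^ 3 * v 1 * (v 2 - v 1) ^ 3 * (v 2 - v 0)) * v j := by
  fin_cases j <;> simp [Fr] <;> ring

lemma Ft_invol (v : Fin 4 → R) (j : Fin 4) :
    Ft (Ft v) j = (v 0 ^ 2 * v 3) * v j := by
  fin_cases j <;> simp [Ft] <;> ring

lemma Fs_invol (v : Fin 4 → R) (j : Fin 4) :
    Fs (Fs v) j = (v 0 * Eh v ^ 4 * ((v 0 ^ 2 + v 1 * v 0 + v 1 ^ 2) * (v 2 - v 0)) * Gh v)
      * v j := by
  have h1 : Eh (Fs v) = v 0 * Gh v * (Eh v ^ 3 * ((v 0 ^ 2 + v 1 * v 0 + v 1 ^ 2)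
      * (v 2 - v 0))) := by
    have : Eh (Fs v) = Fs v 3 * (Fs v 0 ^ 2 + Fs v 1 * Fs v 0 + Fs v 1 ^ 2)
      * (Fs v 2 - Fs v 0) := rfl
    rw [this]
    simp [Fs]; ring
  have h2 : Gh (Fs v) = Eh v ^ 4 * Gh v := by
    have : Gh (Fs v) = (Fs v 0 ^ 2 + Fs v 2 * Fs v 0 + Fs v 2 ^ 2) * (Fs v 1 - Fs v 0)
      * Fs v 0 := rfl
    rw [this]
    simp only [Fs, Matrix.cons_val]
    generalize Eh v = E
    simp only [Gh]
    ring
  have e : ∀ w : Fin 4 → R, Fs w = ![w 0 * Eh w, w 1 * Eh w, w 2 * Eh w, w 0 * Gh w] :=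
    fun w => rfl
  rw [e (Fs v), h1, h2]
  fin_cases j
  · simp [Fs]; ring
  · simp [Fs]; ring
  · simp [Fs]; ring
  · simp [Fs]
    have h3 : Eh v = v 3 * ((v 0 ^ 2 + v 1 * v 0 + v 1 ^ 2) * (v 2 - v 0)) := by
      simp only [Eh]; ring
    linear_combination (v 0 * Eh v ^ 4 * Gh v) * h3

section map

variable {S : Type*} [CommRing S] (φ : R →+* S) (v : Fin 4 → R)

lemma map_Nh : φ (Nh v) = Nh (fun j => φ (v j)) := by simp [Nh]
lemma map_Dh : φ (Dh v) = Dh (fun j => φ (v j)) := by simp [Dh]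
lemma map_Eh : φ (Eh v) = Eh (fun j => φ (v j)) := by simp [Eh]
lemma map_Gh : φ (Gh v) = Gh (fun j => φ (v j)) := by simp [Gh]

lemma map_Fi (j : Fin 4) : φ (Fi v j) = Fi (fun j => φ (v j)) j := by
  fin_cases j <;> simp [Fi, map_Nh, map_Dh]

lemma map_Fr (j : Fin 4) : φ (Fr v j) = Fr (fun j => φ (v j)) j := by
  fin_cases j <;> simp [Fr]

lemma map_Ft (j : Fin 4) : φ (Ft v j) = Ft (fun j => φ (v j)) j := by
  fin_cases j <;> simp [Ft]

lemma map_Fs (j : Fin 4) : φ (Fs v j) = Fs (fun j => φ (v j)) j := by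
  fin_cases j <;> simp [Fs, map_Eh, map_Gh]

lemma map_FF (j : Fin 4) : φ (FF v j) = FF (fun j => φ (v j)) j := by
  have h1 : (fun j => φ (Fi v j)) = Fi (fun j => φ (v j)) := funext fun j => map_Fi φ v j
  simp only [FF, map_Fs, map_Fr, map_Ft, map_Fi]

end map

section scale

variable (c : R) (v : Fin 4 → R)

lemma Fi_scale : Fi (fun j => c * v j) = fun j => c ^ 4 * Fi v j := by
  funext j; fin_cases j <;> simp [Fi, Nh, Dh] <;> ring

lemma Fr_scale : Fr (fun j => c * v j) = fun j => c ^ 3 * Fr v j := by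
  funext j; fin_cases j <;> simp [Fr] <;> ring

lemma Ft_scale : Ft (fun j => c * v j) = fun j => c ^ 2 * Ft v j := by
  funext j; fin_cases j <;> simp [Ft] <;> ring

lemma Fs_scale : Fs (fun j => c * v j) = fun j => c ^ 5 * Fs v j := by
  funext j; fin_cases j <;> simp [Fs, Eh, Gh] <;> ring

end scale

end elem

section homogeneous

variable {K : Type*} [Field K] {σ : Type*} {v : Fin 4 → MvPolynomial σ K} {d : ℕ}

lemma hN (hv : ∀ j, (v j).IsHomogeneous d) : (Nh v).IsHomogeneous (3 * d) := by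
  have h : (Nh v).IsHomogeneous (d + (d + d)) :=
    (hv 3).mul (((hv 0).mul ((hv 1).sub (hv 0))).sub ((hv 3).mul ((hv 2).sub (hv 0))))
  convert h using 1; ring

lemma hQ (hv : ∀ j, (v j).IsHomogeneous d) (i : Fin 4) :
    (v 0 ^ 2 + v i * v 0 + v i ^ 2).IsHomogeneous (2 * d) := by
  have h1 : (v 0 ^ 2).IsHomogeneous (2 * d) := by
    have := (hv 0).pow 2; rwa [mul_comm] at this
  have h2 : (v i ^ 2).IsHomogeneous (2 * d) := by
    have := (hv i).pow 2; rwa [mul_comm] at this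
  have h3 : (v i * v 0).IsHomogeneous (2 * d) := by
    have := (hv i).mul (hv 0); rwa [← two_mul] at this
  exact (h1.add h3).add h2

lemma hD (hv : ∀ j, (v j).IsHomogeneous d) : (Dh v).IsHomogeneous (3 * d) := by
  have h : (Dh v).IsHomogeneous (d + 2 * d) :=
    ((hv 3).mul (hQ hv 1)).sub ((hv 0).mul (hQ hv 2))
  convert h using 1; ring

lemma hE (hv : ∀ j, (v j).IsHomogeneous d) : (Eh v).IsHomogeneous (4 * d) := by
  have h : (Eh v).IsHomogeneous (d + 2 * d + d) :=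
    ((hv 3).mul (hQ hv 1)).mul ((hv 2).sub (hv 0))
  convert h using 1; ring

lemma hG (hv : ∀ j, (v j).IsHomogeneous d) : (Gh v).IsHomogeneous (4 * d) := by
  have h : (Gh v).IsHomogeneous (2 * d + d + d) :=
    ((hQ hv 2).mul ((hv 1).sub (hv 0))).mul (hv 0)
  convert h using 1; ring

lemma hFi (hv : ∀ j, (v j).IsHomogeneous d) (j : Fin 4) : (Fi v j).IsHomogeneous (4 * d) := by
  have e : 4 * d = d + 3 * d := by ring
  rw [e]
  fin_cases j
  · exact (hv 0).mul (hN hv)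
  · exact ((hv 0).mul (hD hv)).sub (((hv 0).add (hv 1)).mul (hN hv))
  · exact (hv 2).mul (hN hv)
  · exact (hv 3).mul (hN hv)

lemma hFr (hv : ∀ j, (v j).IsHomogeneous d) (j : Fin 4) : (Fr v j).IsHomogeneous (3 * d) := by
  have e : 3 * d = d + d + d := by ring
  rw [e]
  have h0 : (v 0 ^ 2).IsHomogeneous (d + d) := by
    have := (hv 0).pow 2; rwa [mul_two] at this
  fin_cases j
  · exact ((hv 1).mul (hv 0)).mul ((hv 2).sub (hv 1))
  · exact h0.mul ((hv 2).sub (hv 1))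
  · exact ((hv 2).mul (hv 0)).mul ((hv 2).sub (hv 1))
  · rw [add_assoc]
    exact (hv 1).mul (((hv 3).mul ((hv 2).sub (hv 0))).sub ((hv 0).mul ((hv 1).sub (hv 0))))

lemma hFt (hv : ∀ j, (v j).IsHomogeneous d) (j : Fin 4) : (Ft v j).IsHomogeneous (2 * d) := by
  have e : 2 * d = d + d := by ring
  rw [e]
  have h0 : (v 0 ^ 2).IsHomogeneous (d + d) := by
    have := (hv 0).pow 2; rwa [mul_two] at this
  fin_cases j
  · exact (hv 0).mul (hv 3)
  · exact (hv 2).mul (hv 3)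
  · exact (hv 1).mul (hv 3)
  · exact h0

lemma hFs (hv : ∀ j, (v j).IsHomogeneous d) (j : Fin 4) : (Fs v j).IsHomogeneous (5 * d) := by
  have e : 5 * d = d + 4 * d := by ring
  rw [e]
  fin_cases j
  · exact (hv 0).mul (hE hv)
  · exact (hv 1).mul (hE hv)
  · exact (hv 2).mul (hE hv)
  · exact (hv 0).mul (hG hv)

lemma hFF (hv : ∀ j, (v j).IsHomogeneous d) (j : Fin 4) :
    (FF v j).IsHomogeneous (5 * (3 * (2 * (4 * (2 * (3 * (4 * d))))))) :=
  hFs (hFr (hFt (hFi (hFt (hFr (hFi hv)))))) j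

end homogeneous

section indep

variable {K : Type*} [Field K]

lemma indep_of_invol {F : Fin 4 → MvPolynomial (Fin 4) K} {κ : MvPolynomial (Fin 4) K} {r : ℕ}
    (hκ : κ.IsHomogeneous r) (hκ0 : κ ≠ 0) (h : ∀ i, aeval F (F i) = κ * X i) :
    AlgebraicIndependent K F := by
  have h1 : AlgebraicIndependent K (fun i : Fin 4 => κ * X i) :=
    (indep_mul_iff (fun i => isHomogeneous_X K i) le_rfl hκ hκ0).mpr
      (algebraicIndependent_X (Fin 4) K)
  have h2 : (aeval (fun i : Fin 4 => κ * X i) : MvPolynomial (Fin 4) K →ₐ[K] _)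
      = (aeval F).comp (aeval F) := by
    ext i : 1
    rw [aeval_X, AlgHom.comp_apply, aeval_X, h]
  unfold AlgebraicIndependent at *
  rw [h2, AlgHom.coe_comp] at h1
  exact Function.Injective.of_comp h1

lemma indep_comp {S : Type*} [CommRing S] [Algebra K S] {v : Fin 4 → S}
    {F : Fin 4 → MvPolynomial (Fin 4) K} (hv : AlgebraicIndependent K v)
    (hF : AlgebraicIndependent K F) : AlgebraicIndependent K (fun i => aeval v (F i)) := by
  have h2 : (aeval (fun i => aeval v (F i)) : MvPolynomial (Fin 4) K →ₐ[K] _)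
      = (aeval v).comp (aeval F) := by
    ext i : 1
    rw [aeval_X, AlgHom.comp_apply, aeval_X]
  unfold AlgebraicIndependent at *
  rw [h2, AlgHom.coe_comp]
  exact hv.comp hF

lemma poly_ne_zero_of_eval {p : MvPolynomial (Fin 4) K} (w : Fin 4 → K) (h : eval w p ≠ 0) :
    p ≠ 0 := fun e => h (by rw [e, map_zero])

lemma X_homog (j : Fin 4) : (X j : MvPolynomial (Fin 4) K).IsHomogeneous 1 := isHomogeneous_X K j

lemma aeval_Fi {S : Type*} [CommRing S] [Algebra K S] (v : Fin 4 → S)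
    (w : Fin 4 → MvPolynomial (Fin 4) K) (j : Fin 4) :
    aeval v (Fi w j) = Fi (fun i => aeval v (w i)) j :=
  map_Fi (aeval v : MvPolynomial (Fin 4) K →ₐ[K] S).toRingHom w j

lemma aeval_Fr {S : Type*} [CommRing S] [Algebra K S] (v : Fin 4 → S)
    (w : Fin 4 → MvPolynomial (Fin 4) K) (j : Fin 4) :
    aeval v (Fr w j) = Fr (fun i => aeval v (w i)) j :=
  map_Fr (aeval v : MvPolynomial (Fin 4) K →ₐ[K] S).toRingHom w j

lemma aeval_Ft {S : Type*} [CommRing S] [Algebra K S] (v : Fin 4 → S)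
    (w : Fin 4 → MvPolynomial (Fin 4) K) (j : Fin 4) :
    aeval v (Ft w j) = Ft (fun i => aeval v (w i)) j :=
  map_Ft (aeval v : MvPolynomial (Fin 4) K →ₐ[K] S).toRingHom w j

lemma aeval_Fs {S : Type*} [CommRing S] [Algebra K S] (v : Fin 4 → S)
    (w : Fin 4 → MvPolynomial (Fin 4) K) (j : Fin 4) :
    aeval v (Fs w j) = Fs (fun i => aeval v (w i)) j :=
  map_Fs (aeval v : MvPolynomial (Fin 4) K →ₐ[K] S).toRingHom w j

lemma aeval_FF {S : Type*} [CommRing S] [Algebra K S] (v : Fin 4 → S)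
    (w : Fin 4 → MvPolynomial (Fin 4) K) (j : Fin 4) :
    aeval v (FF w j) = FF (fun i => aeval v (w i)) j :=
  map_FF (aeval v : MvPolynomial (Fin 4) K →ₐ[K] S).toRingHom w j

lemma indep_FtX : AlgebraicIndependent K (Ft (X : Fin 4 → MvPolynomial (Fin 4) K)) := by
  refine indep_of_invol (κ := (X 0) ^ 2 * X 3) (r := 2 + 1)
    ((isHomogeneous_X_pow 0 2).mul (X_homog 3)) ?_ fun j => ?_
  · exact mul_ne_zero (pow_ne_zero _ (X_ne_zero _)) (X_ne_zero _)
  · rw [aeval_Ft]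
    simp only [aeval_X]
    exact Ft_invol X j

lemma eval_Nh (w : Fin 4 → K) (v : Fin 4 → MvPolynomial (Fin 4) K) :
    eval w (Nh v) = Nh (fun j => eval w (v j)) := map_Nh (eval w) v

lemma eval_Fi (w : Fin 4 → K) (v : Fin 4 → MvPolynomial (Fin 4) K) (j : Fin 4) :
    eval w (Fi v j) = Fi (fun j => eval w (v j)) j := map_Fi (eval w) v j

lemma NhX_ne : Nh (X : Fin 4 → MvPolynomial (Fin 4) K) ≠ 0 := by
  refine poly_ne_zero_of_eval ![0, 1, 1, 1] ?_
  rw [eval_Nh]
  simp [Nh]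

lemma NhFiX_ne : Nh (Fi (X : Fin 4 → MvPolynomial (Fin 4) K)) ≠ 0 := by
  refine poly_ne_zero_of_eval ![0, 1, 1, 1] ?_
  rw [eval_Nh]
  simp only [eval_Fi, eval_X]
  simp [Nh, Fi, Dh]

lemma X21_ne : (X 2 - X 1 : MvPolynomial (Fin 4) K) ≠ 0 :=
  poly_ne_zero_of_eval ![0, 0, 1, 0] (by simp)

lemma X20_ne : (X 2 - X 0 : MvPolynomial (Fin 4) K) ≠ 0 :=
  poly_ne_zero_of_eval ![0, 0, 1, 0] (by simp)

lemma X10_ne : (X 1 - X 0 : MvPolynomial (Fin 4) K) ≠ 0 :=
  poly_ne_zero_of_eval ![0, 1, 0, 0] (by simp)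

lemma Q1_ne : (X 0 ^ 2 + X 1 * X 0 + X 1 ^ 2 : MvPolynomial (Fin 4) K) ≠ 0 :=
  poly_ne_zero_of_eval ![0, 1, 0, 0] (by simp)

lemma Q2_ne : (X 0 ^ 2 + X 2 * X 0 + X 2 ^ 2 : MvPolynomial (Fin 4) K) ≠ 0 :=
  poly_ne_zero_of_eval ![0, 0, 1, 0] (by simp)

lemma EhX_ne : Eh (X : Fin 4 → MvPolynomial (Fin 4) K) ≠ 0 :=
  mul_ne_zero (mul_ne_zero (X_ne_zero _) Q1_ne) X20_ne

lemma GhX_ne : Gh (X : Fin 4 → MvPolynomial (Fin 4) K) ≠ 0 :=
  mul_ne_zero (mul_ne_zero Q2_ne X10_ne) (X_ne_zero _)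

lemma indep_FiX : AlgebraicIndependent K (Fi (X : Fin 4 → MvPolynomial (Fin 4) K)) := by
  refine indep_of_invol (κ := Nh X * Nh (Fi X)) (r := 3 * 1 + 3 * (4 * 1))
    ((hN X_homog).mul (hN (hFi X_homog))) (mul_ne_zero NhX_ne NhFiX_ne) fun j => ?_
  rw [aeval_Fi]
  simp only [aeval_X]
  exact Fi_invol X j

lemma indep_FrX : AlgebraicIndependent K (Fr (X : Fin 4 → MvPolynomial (Fin 4) K)) := by
  have h3 : (X 2 - X 1 : MvPolynomial (Fin 4) K).IsHomogeneous 1 := (X_homog 2).sub (X_homog 1)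
  have h4 : (X 2 - X 0 : MvPolynomial (Fin 4) K).IsHomogeneous 1 := (X_homog 2).sub (X_homog 0)
  refine indep_of_invol (κ := (X 0) ^ 3 * X 1 * (X 2 - X 1) ^ 3 * (X 2 - X 0))
    (r := 3 + 1 + 1 * 3 + 1)
    ((((isHomogeneous_X_pow 0 3).mul (X_homog 1)).mul (h3.pow 3)).mul h4) ?_ fun j => ?_
  · exact mul_ne_zero (mul_ne_zero (mul_ne_zero (pow_ne_zero _ (X_ne_zero _)) (X_ne_zero _))
      (pow_ne_zero _ X21_ne)) X20_ne
  · rw [aeval_Fr]
    simp only [aeval_X]
    exact Fr_invol X j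

lemma indep_FsX : AlgebraicIndependent K (Fs (X : Fin 4 → MvPolynomial (Fin 4) K)) := by
  have h4 : (X 2 - X 0 : MvPolynomial (Fin 4) K).IsHomogeneous 1 := (X_homog 2).sub (X_homog 0)
  refine indep_of_invol (κ := X 0 * Eh X ^ 4 * ((X 0 ^ 2 + X 1 * X 0 + X 1 ^ 2) * (X 2 - X 0))
      * Gh X)
    (r := 1 + 4 * 1 * 4 + (2 * 1 + 1) + 4 * 1)
    ((((X_homog 0).mul ((hE X_homog).pow 4)).mul ((hQ X_homog 1).mul h4)).mul (hG X_homog))
      ?_ fun j => ?_
  · exact mul_ne_zero (mul_ne_zero (mul_ne_zero (X_ne_zero _) (pow_ne_zero _ EhX_ne))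
      (mul_ne_zero Q1_ne X20_ne)) GhX_ne
  · rw [aeval_Fs]
    simp only [aeval_X]
    exact Fs_invol X j

section gen

variable {S : Type*} [CommRing S] [Algebra K S] {v : Fin 4 → S}

lemma indep_Fi (hv : AlgebraicIndependent K v) : AlgebraicIndependent K (Fi v) := by
  convert indep_comp hv indep_FiX using 1
  funext i; rw [aeval_Fi]; simp only [aeval_X]

lemma indep_Fr (hv : AlgebraicIndependent K v) : AlgebraicIndependent K (Fr v) := by
  convert indep_comp hv indep_FrX using 1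
  funext i; rw [aeval_Fr]; simp only [aeval_X]

lemma indep_Ft (hv : AlgebraicIndependent K v) : AlgebraicIndependent K (Ft v) := by
  convert indep_comp hv indep_FtX using 1
  funext i; rw [aeval_Ft]; simp only [aeval_X]

lemma indep_Fs (hv : AlgebraicIndependent K v) : AlgebraicIndependent K (Fs v) := by
  convert indep_comp hv indep_FsX using 1
  funext i; rw [aeval_Fs]; simp only [aeval_X]

lemma indep_FF (hv : AlgebraicIndependent K v) : AlgebraicIndependent K (FF v) :=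
  indep_Fs (indep_Fr (indep_Ft (indep_Fi (indep_Ft (indep_Fr (indep_Fi hv))))))

/-- nondegeneracy of a homogeneous coordinate vector -/
structure NDv {S : Type*} [CommRing S] (v : Fin 4 → S) : Prop where
  ne : ∀ j, v j ≠ 0
  h10 : v 1 - v 0 ≠ 0
  h20 : v 2 - v 0 ≠ 0
  h21 : v 2 - v 1 ≠ 0
  nh : Nh v ≠ 0
  eh : Eh v ≠ 0
  gh : Gh v ≠ 0

lemma aeval_ne_of_indep (hv : AlgebraicIndependent K v) {p : MvPolynomial (Fin 4) K}
    (hp : p ≠ 0) : aeval v p ≠ 0 := by
  intro h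
  exact hp (hv (by rw [h, map_zero]))

lemma NDv_of_indep (hv : AlgebraicIndependent K v) : NDv v := by
  refine ⟨fun j => ?_, ?_, ?_, ?_, ?_, ?_, ?_⟩
  · simpa using aeval_ne_of_indep hv (X_ne_zero (R := K) j)
  · simpa using aeval_ne_of_indep hv X10_ne
  · simpa using aeval_ne_of_indep hv X20_ne
  · simpa using aeval_ne_of_indep hv X21_ne
  · have := aeval_ne_of_indep hv NhX_ne
    rw [show aeval v (Nh X) = Nh v by
      have := map_Nh (aeval v : MvPolynomial (Fin 4) K →ₐ[K] S).toRingHom X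
      simpa using this] at this
    exact this
  · have := aeval_ne_of_indep hv EhX_ne
    rw [show aeval v (Eh X) = Eh v by
      have := map_Eh (aeval v : MvPolynomial (Fin 4) K →ₐ[K] S).toRingHom X
      simpa using this] at this
    exact this
  · have := aeval_ne_of_indep hv GhX_ne
    rw [show aeval v (Gh X) = Gh v by
      have := map_Gh (aeval v : MvPolynomial (Fin 4) K →ₐ[K] S).toRingHom X
      simpa using this] at this
    exact this

end gen

end indep

end partElem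

/-! ### Points of the curve and coordinates of triples -/

section partCurve

open WeierstrassCurve

section curve

variable {L : Type*} [Field L] {k : L}

/-- the curve `y² = x³ + k` -/
def Ek (k : L) : WeierstrassCurve.Affine L := ⟨0, 0, 0, 0, k⟩

def px {k : L} : (Ek k).Point → L
  | .zero => 0
  | .some x _ _ => x

def py {k : L} : (Ek k).Point → L
  | .zero => 0
  | .some _ y _ => y

@[simp] lemma px_zero : px (0 : (Ek k).Point) = 0 := rfl
@[simp] lemma py_zero : py (0 : (Ek k).Point) = 0 := rfl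
@[simp] lemma px_some {x y : L} (h : (Ek k).Nonsingular x y) :
    px (.some x y h : (Ek k).Point) = x := rfl
@[simp] lemma py_some {x y : L} (h : (Ek k).Nonsingular x y) :
    py (.some x y h : (Ek k).Point) = y := rfl

lemma Ek_equation {x y : L} : (Ek k).Equation x y ↔ y ^ 2 = x ^ 3 + k := by
  rw [Affine.equation_iff]
  simp [Ek]

lemma Ek_nonsingular (h2 : (2 : L) ≠ 0) (hk : k ≠ 0) {x y : L} (h : y ^ 2 = x ^ 3 + k)
    (h3 : (3 : L) ≠ 0) : (Ek k).Nonsingular x y := by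
  rw [Affine.nonsingular_iff]
  refine ⟨Ek_equation.mpr h, ?_⟩
  simp only [Ek, zero_mul, mul_zero, add_zero, sub_zero]
  by_cases hx : x = 0
  · right
    intro hy
    have : 2 * y = 0 := by linear_combination hy
    rcases mul_eq_zero.mp this with h' | h'
    · exact h2 h'
    · rw [h', hx] at h
      apply hk
      linear_combination -h
  · left
    intro h'
    have : 3 * x ^ 2 ≠ 0 := mul_ne_zero h3 (pow_ne_zero _ hx)
    exact this h'.symm

lemma curve_eq {P : (Ek k).Point} (hP : P ≠ 0) : py P ^ 2 = px P ^ 3 + k := by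
  rcases P with _ | ⟨x, y, h⟩
  · exact absurd rfl hP
  · exact Ek_equation.mp h.1

lemma ne_zero_of_px {P : (Ek k).Point} (h : px P ≠ 0) : P ≠ 0 := by
  rintro rfl; exact h rfl

lemma px_neg (P : (Ek k).Point) : px (-P) = px P := by
  rcases P with _ | ⟨x, y, h⟩
  · rfl
  · rw [Affine.Point.neg_some]; rfl

lemma py_neg (P : (Ek k).Point) : py (-P) = - py P := by
  rcases P with _ | ⟨x, y, h⟩
  · exact neg_zero.symm
  · rw [Affine.Point.neg_some]
    show (Ek k).negY x y = -y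
    simp [Affine.negY, Ek]

lemma eq_or_neg_of_px {P Q : (Ek k).Point} (hP : P ≠ 0) (hQ : Q ≠ 0) (h : px P = px Q) :
    P = Q ∨ P = -Q := by
  rcases P with _ | ⟨x1, y1, h1⟩
  · exact absurd rfl hP
  rcases Q with _ | ⟨x2, y2, h2⟩
  · exact absurd rfl hQ
  exact Affine.Point.X_eq_iff.mp h

variable [DecidableEq L]

lemma add_generic {P Q : (Ek k).Point} (hP : P ≠ 0) (hQ : Q ≠ 0) (hx : px P ≠ px Q) {l : L}
    (hl : l * (px Q - px P) = py Q - py P) :
    P + Q ≠ 0 ∧ px (-(P + Q)) = l ^ 2 - px P - px Q ∧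
      py (-(P + Q)) = py P + l * (px (-(P + Q)) - px P) := by
  rcases P with _ | ⟨x1, y1, h1⟩
  · exact absurd rfl hP
  rcases Q with _ | ⟨x2, y2, h2⟩
  · exact absurd rfl hQ
  simp only [px_some, py_some] at hx hl
  have hs : (Ek k).slope x1 x2 y1 y2 = l := by
    rw [Affine.slope_of_X_ne hx]
    have : x1 - x2 ≠ 0 := sub_ne_zero.mpr hx
    field_simp
    linear_combination hl
  rw [Affine.Point.add_of_X_ne hx]
  refine ⟨Affine.Point.some_ne_zero _, ?_, ?_⟩
  · rw [px_neg]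
    simp only [px_some, hs]
    simp [Affine.addX, Ek]
  · rw [py_neg, px_neg]
    simp only [px_some, py_some, hs]
    simp [Affine.addX, Affine.addY, Affine.negAddY, Affine.negY, Ek]
    ring

end curve

section state

variable {L : Type*} [Field L] {k : L}

/-- nondegeneracy of a triple of points -/
structure ND3 (P1 P2 P3 : (Ek k).Point) : Prop where
  x1 : px P1 ≠ 0
  x2 : px P2 ≠ 0
  x3 : px P3 ≠ 0
  x12 : px P1 ≠ px P2
  x13 : px P1 ≠ px P3
  x23 : px P2 ≠ px P3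
  y12 : py P1 ≠ py P2
  y13 : py P1 ≠ py P3
  y23 : py P2 ≠ py P3

/-- `v` is a homogeneous coordinate vector of the triple of points -/
def Co (P1 P2 P3 : (Ek k).Point) (v : Fin 4 → L) : Prop :=
  ∃ c l m : L, c ≠ 0 ∧ l * (px P2 - px P1) = py P2 - py P1 ∧
    m * (px P3 - px P1) = py P3 - py P1 ∧
    v 0 = c * (l * px P1) ∧ v 1 = c * (l * px P2) ∧ v 2 = c * (l * px P3) ∧
    v 3 = c * (m * px P1)

lemma ND3.swap12 {P1 P2 P3 : (Ek k).Point} (h : ND3 P1 P2 P3) : ND3 P2 P1 P3 :=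
  ⟨h.x2, h.x1, h.x3, h.x12.symm, h.x23, h.x13, h.y12.symm, h.y23, h.y13⟩

lemma ND3.swap23 {P1 P2 P3 : (Ek k).Point} (h : ND3 P1 P2 P3) : ND3 P1 P3 P2 :=
  ⟨h.x1, h.x3, h.x2, h.x13, h.x12, h.x23.symm, h.y13, h.y12, h.y23.symm⟩

lemma ND3.neg {P1 P2 P3 : (Ek k).Point} (h : ND3 P1 P2 P3) : ND3 (-P1) (-P2) (-P3) := by
  refine ⟨?_, ?_, ?_, ?_, ?_, ?_, ?_, ?_, ?_⟩
  · rw [px_neg]; exact h.x1
  · rw [px_neg]; exact h.x2
  · rw [px_neg]; exact h.x3
  · rw [px_neg, px_neg]; exact h.x12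
  · rw [px_neg, px_neg]; exact h.x13
  · rw [px_neg, px_neg]; exact h.x23
  · rw [py_neg, py_neg]; exact fun e => h.y12 (neg_injective e)
  · rw [py_neg, py_neg]; exact fun e => h.y13 (neg_injective e)
  · rw [py_neg, py_neg]; exact fun e => h.y23 (neg_injective e)

lemma Co.neg {P1 P2 P3 : (Ek k).Point} {v : Fin 4 → L} (h : Co P1 P2 P3 v) :
    Co (-P1) (-P2) (-P3) v := by
  obtain ⟨c, l, m, hc, hl, hm, h0, h1, h2, h3⟩ := h
  refine ⟨-c, -l, -m, neg_ne_zero.mpr hc, ?_, ?_, ?_, ?_, ?_, ?_⟩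
  · rw [px_neg, px_neg, py_neg, py_neg]; linear_combination -hl
  · rw [px_neg, px_neg, py_neg, py_neg]; linear_combination -hm
  · rw [px_neg, h0]; ring
  · rw [px_neg, h1]; ring
  · rw [px_neg, h2]; ring
  · rw [px_neg, h3]; ring

lemma Co.scale {P1 P2 P3 : (Ek k).Point} {v w : Fin 4 → L} (h : Co P1 P2 P3 v) {a : L}
    (ha : a ≠ 0) (hw : ∀ j, w j = a * v j) : Co P1 P2 P3 w := by
  obtain ⟨c, l, m, hc, hl, hm, h0, h1, h2, h3⟩ := h
  refine ⟨a * c, l, m, mul_ne_zero ha hc, hl, hm, ?_, ?_, ?_, ?_⟩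
  · rw [hw, h0]; ring
  · rw [hw, h1]; ring
  · rw [hw, h2]; ring
  · rw [hw, h3]; ring

lemma slopes_ne {P1 P2 P3 : (Ek k).Point} (hnd : ND3 P1 P2 P3) {l m : L}
    (hl : l * (px P2 - px P1) = py P2 - py P1) (hm : m * (px P3 - px P1) = py P3 - py P1) :
    l ≠ 0 ∧ m ≠ 0 := by
  constructor
  · rintro rfl
    exact hnd.y12 (by linear_combination hl)
  · rintro rfl
    exact hnd.y13 (by linear_combination hm)

lemma Co.r {P1 P2 P3 : (Ek k).Point} {v : Fin 4 → L} (hnd : ND3 P1 P2 P3) (h : Co P1 P2 P3 v) :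
    Co P2 P1 P3 (Fr v) := by
  obtain ⟨c, l, m, hc, hl, hm, h0, h1, h2, h3⟩ := h
  obtain ⟨hl0, hm0⟩ := slopes_ne hnd hl hm
  have hx : px P3 - px P2 ≠ 0 := sub_ne_zero.mpr hnd.x23.symm
  obtain ⟨m', hm'⟩ : ∃ m', m' * (px P3 - px P2) = py P3 - py P2 :=
    ⟨(py P3 - py P2) / (px P3 - px P2), div_mul_cancel₀ _ hx⟩
  refine ⟨c ^ 3 * l ^ 2 * px P1 * (px P3 - px P2), l, m', ?_, ?_, hm', ?_, ?_, ?_, ?_⟩
  · exact mul_ne_zero (mul_ne_zero (mul_ne_zero (pow_ne_zero _ hc) (pow_ne_zero _ hl0)) hnd.x1) hx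
  · linear_combination -hl
  · simp only [Fr, Matrix.cons_val]; rw [h0, h1, h2]; ring
  · simp only [Fr, Matrix.cons_val]; rw [h0, h1, h2]; ring
  · simp only [Fr, Matrix.cons_val]; rw [h0, h1, h2]; ring
  · simp only [Fr, Matrix.cons_val]; rw [h0, h1, h2, h3]
    linear_combination (c ^ 3 * l ^ 2 * px P1 * px P2) * (hm - hl - hm')

lemma Co.t {P1 P2 P3 : (Ek k).Point} {v : Fin 4 → L} (hnd : ND3 P1 P2 P3) (h : Co P1 P2 P3 v) :
    Co P1 P3 P2 (Ft v) := by
  obtain ⟨c, l, m, hc, hl, hm, h0, h1, h2, h3⟩ := h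
  obtain ⟨hl0, hm0⟩ := slopes_ne hnd hl hm
  refine ⟨c ^ 2 * l * px P1, m, l, ?_, hm, hl, ?_, ?_, ?_, ?_⟩
  · exact mul_ne_zero (mul_ne_zero (pow_ne_zero _ hc) hl0) hnd.x1
  · simp only [Ft, Matrix.cons_val]; rw [h0, h3]; ring
  · simp only [Ft, Matrix.cons_val]; rw [h2, h3]; ring
  · simp only [Ft, Matrix.cons_val]; rw [h1, h3]; ring
  · simp only [Ft, Matrix.cons_val]; rw [h0]; ring

lemma curve_slope {P Q : (Ek k).Point} (hP : P ≠ 0) (hQ : Q ≠ 0) (hx : px P ≠ px Q) {l : L}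
    (hl : l * (px Q - px P) = py Q - py P) :
    px P ^ 2 + px P * px Q + px Q ^ 2 = l * (py P + py Q) := by
  have h1 := curve_eq hP
  have h2 := curve_eq hQ
  have h3 : px Q - px P ≠ 0 := sub_ne_zero.mpr hx.symm
  apply mul_right_cancel₀ h3
  linear_combination h1 - h2 - (py P + py Q) * hl

/-- the values of `Nh` and `Dh` at a coordinate vector -/
lemma Nh_Co {P1 P2 P3 : (Ek k).Point} {v : Fin 4 → L} {c l m : L}
    (hl : l * (px P2 - px P1) = py P2 - py P1) (hm : m * (px P3 - px P1) = py P3 - py P1)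
    (h0 : v 0 = c * (l * px P1)) (h1 : v 1 = c * (l * px P2)) (h2 : v 2 = c * (l * px P3))
    (h3 : v 3 = c * (m * px P1)) :
    Nh v = c ^ 3 * (l * m * px P1 ^ 2 * (py P2 - py P3)) := by
  simp only [Nh]
  rw [h0, h1, h2, h3]
  linear_combination (c ^ 3 * l * m * px P1 ^ 2) * (hl - hm)

lemma Dh_Co {P1 P2 P3 : (Ek k).Point} {v : Fin 4 → L} {c l m : L} (hnd : ND3 P1 P2 P3)
    (hl : l * (px P2 - px P1) = py P2 - py P1) (hm : m * (px P3 - px P1) = py P3 - py P1)
    (h0 : v 0 = c * (l * px P1)) (h1 : v 1 = c * (l * px P2)) (h2 : v 2 = c * (l * px P3))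
    (h3 : v 3 = c * (m * px P1)) :
    Dh v = c ^ 3 * (l ^ 3 * m * px P1 * (py P2 - py P3)) := by
  have e1 := curve_slope (ne_zero_of_px hnd.x1) (ne_zero_of_px hnd.x2) hnd.x12 hl
  have e2 := curve_slope (ne_zero_of_px hnd.x1) (ne_zero_of_px hnd.x3) hnd.x13 hm
  simp only [Dh]
  rw [h0, h1, h2, h3]
  linear_combination (c ^ 3 * l ^ 2 * px P1) * (m * e1 - l * e2)

section steps

variable [DecidableEq L]

/-- the coordinates of `(P₁, -P₁-P₂, P₃)` before nondegeneracy is known -/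
lemma Co.i_core {P1 P2 P3 : (Ek k).Point} {v : Fin 4 → L} (hnd : ND3 P1 P2 P3)
    (h : Co P1 P2 P3 v) : Co P1 (-(P1 + P2)) P3 (Fi v) := by
  obtain ⟨c, l, m, hc, hl, hm, h0, h1, h2, h3⟩ := h
  obtain ⟨hl0, hm0⟩ := slopes_ne hnd hl hm
  obtain ⟨-, hX, hY⟩ := add_generic (ne_zero_of_px hnd.x1) (ne_zero_of_px hnd.x2) hnd.x12 hl
  have hN := Nh_Co hl hm h0 h1 h2 h3
  have hD := Dh_Co hnd hl hm h0 h1 h2 h3
  have hy : py P2 - py P3 ≠ 0 := sub_ne_zero.mpr hnd.y23
  refine ⟨c ^ 4 * (l * m * px P1 ^ 2 * (py P2 - py P3)), l, m, ?_, ?_, hm, ?_, ?_, ?_, ?_⟩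
  · exact mul_ne_zero (pow_ne_zero _ hc) (mul_ne_zero (mul_ne_zero (mul_ne_zero hl0 hm0)
      (pow_ne_zero _ hnd.x1)) hy)
  · rw [hY]; ring
  · simp only [Fi, Matrix.cons_val]; rw [hN, h0]; ring
  · simp only [Fi, Matrix.cons_val]; rw [hN, hD, h0, h1, hX]; ring
  · simp only [Fi, Matrix.cons_val]; rw [hN, h2]; ring
  · simp only [Fi, Matrix.cons_val]; rw [hN, h3]; ring

omit [DecidableEq L] in
/-- the coordinates of `(-P₁, P₂, P₃)` -/
lemma Co.s_core {P1 P2 P3 : (Ek k).Point} {v : Fin 4 → L} (hnd : ND3 P1 P2 P3)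
    (h : Co P1 P2 P3 v) : Co (-P1) P2 P3 (Fs v) := by
  obtain ⟨c, l, m, hc, hl, hm, h0, h1, h2, h3⟩ := h
  obtain ⟨hl0, hm0⟩ := slopes_ne hnd hl hm
  have e1 := curve_slope (ne_zero_of_px hnd.x1) (ne_zero_of_px hnd.x2) hnd.x12 hl
  have e2 := curve_slope (ne_zero_of_px hnd.x1) (ne_zero_of_px hnd.x3) hnd.x13 hm
  have hx2 : px P2 - px P1 ≠ 0 := sub_ne_zero.mpr hnd.x12.symm
  have hx3 : px P3 - px P1 ≠ 0 := sub_ne_zero.mpr hnd.x13.symm
  obtain ⟨l', hl'⟩ : ∃ l', l' * (px P2 - px P1) = py P2 + py P1 :=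
    ⟨(py P2 + py P1) / (px P2 - px P1), div_mul_cancel₀ _ hx2⟩
  obtain ⟨m', hm'⟩ : ∃ m', m' * (px P3 - px P1) = py P3 + py P1 :=
    ⟨(py P3 + py P1) / (px P3 - px P1), div_mul_cancel₀ _ hx3⟩
  have hE : Eh v = c ^ 4 * (l ^ 4 * m * px P1 * (px P3 - px P1) * (px P2 - px P1) * l') := by
    simp only [Eh]
    rw [h0, h1, h2, h3]
    linear_combination (c ^ 4 * l ^ 3 * m * px P1 * (px P3 - px P1)) * (e1 - l * hl')
  have hG : Gh v = c ^ 4 * (l ^ 4 * m * px P1 * (px P3 - px P1) * (px P2 - px P1) * m') := by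
    simp only [Gh]
    rw [h0, h1, h2]
    linear_combination (c ^ 4 * l ^ 4 * px P1 * (px P2 - px P1)) * (e2 - m * hm')
  refine ⟨c ^ 5 * (l ^ 5 * m * px P1 * (px P3 - px P1) * (px P2 - px P1)), l', m',
    ?_, ?_, ?_, ?_, ?_, ?_, ?_⟩
  · exact mul_ne_zero (pow_ne_zero _ hc) (mul_ne_zero (mul_ne_zero (mul_ne_zero (mul_ne_zero
      (pow_ne_zero _ hl0) hm0) hnd.x1) hx3) hx2)
  · rw [px_neg, py_neg]; linear_combination hl'
  · rw [px_neg, py_neg]; linear_combination hm'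
  · simp only [Fs, Matrix.cons_val]; rw [hE, h0, px_neg]; ring
  · simp only [Fs, Matrix.cons_val]; rw [hE, h1]; ring
  · simp only [Fs, Matrix.cons_val]; rw [hE, h2]; ring
  · simp only [Fs, Matrix.cons_val]; rw [hG, h0, px_neg]; ring

end steps

/-- nondegeneracy of the points from nondegeneracy of the coordinate vector -/
lemma ND3_of_NDv {P1 P2 P3 : (Ek k).Point} {v : Fin 4 → L} (h : Co P1 P2 P3 v) (hv : NDv v) :
    ND3 P1 P2 P3 := by
  obtain ⟨c, l, m, hc, hl, hm, h0, h1, h2, h3⟩ := h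
  have hN := Nh_Co hl hm h0 h1 h2 h3
  have hx1 : px P1 ≠ 0 := by
    intro e; apply hv.ne 0; rw [h0, e]; ring
  have hx2 : px P2 ≠ 0 := by
    intro e; apply hv.ne 1; rw [h1, e]; ring
  have hx3 : px P3 ≠ 0 := by
    intro e; apply hv.ne 2; rw [h2, e]; ring
  have hl0 : l ≠ 0 := by
    intro e; apply hv.ne 0; rw [h0, e]; ring
  have hm0 : m ≠ 0 := by
    intro e; apply hv.ne 3; rw [h3, e]; ring
  have h12 : px P1 ≠ px P2 := by
    intro e; apply hv.h10; rw [h0, h1, e]; ring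
  have h13 : px P1 ≠ px P3 := by
    intro e; apply hv.h20; rw [h0, h2, e]; ring
  have h23 : px P2 ≠ px P3 := by
    intro e; apply hv.h21; rw [h1, h2, e]; ring
  refine ⟨hx1, hx2, hx3, h12, h13, h23, ?_, ?_, ?_⟩
  · intro e
    have : l * (px P2 - px P1) = 0 := by rw [hl, e]; ring
    rcases mul_eq_zero.mp this with h | h
    · exact hl0 h
    · exact h12 (by linear_combination -h)
  · intro e
    have : m * (px P3 - px P1) = 0 := by rw [hm, e]; ring
    rcases mul_eq_zero.mp this with h | h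
    · exact hm0 h
    · exact h13 (by linear_combination -h)
  · intro e
    apply hv.nh
    rw [hN, e]; ring

section step

variable [DecidableEq L]

lemma step_core {P1 P2 P3 : (Ek k).Point} {v : Fin 4 → L} (hnd : ND3 P1 P2 P3)
    (h : Co P1 P2 P3 v) (nd1 : ND3 P1 (-(P1 + P2)) P3)
    (nd2 : ND3 (-(P1 + P2)) (-(-(P1 + P2) + P3)) P1) :
    Co P1 (P1 + P2) (P3 - (P1 + P2)) (FF v) := by
  have c1 := h.i_core hnd
  have c2 := c1.r nd1
  have c3 := c2.t nd1.swap12
  have c4 := c3.i_core nd1.swap12.swap23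
  have c5 := c4.t nd2
  have c6 := c5.r nd2.swap23
  have c7 := (c6.s_core nd2.swap23.swap12).neg
  have e : - -(-(P1 + P2) + P3) = P3 - (P1 + P2) := by abel
  rw [neg_neg, neg_neg, e] at c7
  exact c7

lemma step_generic {K : Type*} [Field K] [Algebra K L] {P1 P2 P3 : (Ek k).Point}
    {v : Fin 4 → L} (hv : AlgebraicIndependent K v) (hnd : ND3 P1 P2 P3)
    (h : Co P1 P2 P3 v) :
    ND3 P1 (P1 + P2) (P3 - (P1 + P2)) ∧ Co P1 (P1 + P2) (P3 - (P1 + P2)) (FF v) := by
  have i1 := indep_Fi hv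
  have i4 := indep_Fi (indep_Ft (indep_Fr i1))
  have c1 := h.i_core hnd
  have nd1 := ND3_of_NDv c1 (NDv_of_indep i1)
  have c3 := (c1.r nd1).t nd1.swap12
  have c4 := c3.i_core nd1.swap12.swap23
  have nd2 := ND3_of_NDv c4 (NDv_of_indep i4)
  have c7 := step_core hnd h nd1 nd2
  exact ⟨ND3_of_NDv c7 (NDv_of_indep (indep_FF hv)), c7⟩

end step

end state

end partCurve

/-! ### The generic triple and the upper bound -/

section partGeneric

open MvPolynomial

section triple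

variable {L : Type*} [Field L]

def Kh {R : Type*} [CommRing R] (v : Fin 4 → R) : R :=
  (Nh v * (v 0 ^ 2 + v 1 * v 0 + v 1 ^ 2) - (v 1 - v 0) * v 0 * Dh v) ^ 2
    - 4 * Nh v * Dh v * v 0 ^ 4

lemma map_Kh {R S : Type*} [CommRing R] [CommRing S] (φ : R →+* S) (v : Fin 4 → R) :
    φ (Kh v) = Kh (fun j => φ (v j)) := by
  have h4 : φ 4 = 4 := map_ofNat φ 4
  simp [Kh, map_Nh, map_Dh, h4]

lemma exists_triple (h2 : (2 : L) ≠ 0) (h3 : (3 : L) ≠ 0) {v : Fin 4 → L} (hv : NDv v)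
    (hD : Dh v ≠ 0) (hK : Kh v ≠ 0) :
    ∃ k : L, ∃ P1 P2 P3 : (Ek k).Point, Co P1 P2 P3 v := by
  have hW := hv.ne 0
  have hN := hv.nh
  obtain ⟨W, hWe⟩ : ∃ W, W = v 0 := ⟨_, rfl⟩
  obtain ⟨A, hAe⟩ : ∃ A, A = v 1 := ⟨_, rfl⟩
  obtain ⟨C, hCe⟩ : ∃ C, C = v 2 := ⟨_, rfl⟩
  obtain ⟨T, hTe⟩ : ∃ T, T = v 3 := ⟨_, rfl⟩
  obtain ⟨n, hn⟩ : ∃ n, n = Nh v := ⟨_, rfl⟩
  obtain ⟨d, hd⟩ : ∃ d, d = Dh v := ⟨_, rfl⟩
  have hn' : n = T * (W * (A - W) - T * (C - W)) := by rw [hn, hWe, hAe, hCe, hTe]; rfl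
  have hd' : d = T * (W ^ 2 + A * W + A ^ 2) - W * (W ^ 2 + C * W + C ^ 2) := by
    rw [hd, hWe, hAe, hCe, hTe]; rfl
  have hK' : (n * (W ^ 2 + A * W + A ^ 2) - (A - W) * W * d) ^ 2 - 4 * n * d * W ^ 4 ≠ 0 := by
    rw [hn, hd, hWe, hAe]; exact hK
  rw [← hWe] at hW
  rw [← hn] at hN
  rw [← hd] at hD
  set x1 := n / d with hx1
  set x2 := A / W * x1 with hx2
  set x3 := C / W * x1 with hx3
  set t := T / W with ht
  set y1 := (x1 ^ 2 + x1 * x2 + x2 ^ 2 - (x2 - x1)) / 2 with hy1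
  set y2 := y1 + (x2 - x1) with hy2
  set y3 := y1 + t * (x3 - x1) with hy3
  set k := y1 ^ 2 - x1 ^ 3 with hk
  have hk0 : k ≠ 0 := by
    intro h
    apply hK'
    have h4 : (4 : L) ≠ 0 := by
      have : (4 : L) = 2 * 2 := by norm_num
      rw [this]; exact mul_ne_zero h2 h2
    have e : k * (4 * d ^ 4 * W ^ 4)
        = n ^ 2 * ((n * (W ^ 2 + A * W + A ^ 2) - (A - W) * W * d) ^ 2 - 4 * n * d * W ^ 4) := by
      rw [hk, hy1, hx2, hx1]
      field_simp
      ring
    rw [h, zero_mul] at e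
    rcases mul_eq_zero.mp e.symm with h' | h'
    · exact absurd (pow_eq_zero_iff (two_ne_zero)|>.mp h') hN
    · exact h'
  have e1 : y1 ^ 2 = x1 ^ 3 + k := by rw [hk]; ring
  have hs : y1 + y2 = x1 ^ 2 + x1 * x2 + x2 ^ 2 := by
    rw [hy2, hy1]; field_simp; ring
  have e2 : y2 ^ 2 = x2 ^ 3 + k := by
    have : (y2 - y1) = (x2 - x1) := by rw [hy2]; ring
    linear_combination e1 + (x2 - x1) * hs + (y1 + y2) * this
  have key : t * (x1 ^ 2 + x1 * x2 + x2 ^ 2 - (x2 - x1) + t * (x3 - x1))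
      = x1 ^ 2 + x1 * x3 + x3 ^ 2 := by
    rw [hx2, hx3, ht, hx1]
    field_simp
    rw [hn', hd']
    ring
  have e3 : y3 ^ 2 = x3 ^ 3 + k := by
    have h1 : y3 - y1 = t * (x3 - x1) := by rw [hy3]; ring
    have h2y : 2 * y1 = x1 ^ 2 + x1 * x2 + x2 ^ 2 - (x2 - x1) := by rw [hy1]; field_simp
    linear_combination e1 + (y3 + y1) * h1 + t * (x3 - x1) * h1 + (x3 - x1) * key
      + (x3 - x1) * t * h2y
  refine ⟨k, .some x1 y1 (Ek_nonsingular h2 hk0 e1 h3), .some x2 y2 (Ek_nonsingular h2 hk0 e2 h3),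
    .some x3 y3 (Ek_nonsingular h2 hk0 e3 h3), W / x1, 1, t, ?_, ?_, ?_, ?_, ?_, ?_, ?_⟩
  · exact div_ne_zero hW (div_ne_zero hN hD)
  · simp only [px_some, py_some]; rw [hy2]; ring
  · simp only [px_some, py_some]; rw [hy3]; ring
  · simp only [px_some]; rw [← hWe]
    have : x1 ≠ 0 := div_ne_zero hN hD
    field_simp
  · simp only [px_some]; rw [← hAe, hx2]
    have : x1 ≠ 0 := div_ne_zero hN hD
    field_simp
  · simp only [px_some]; rw [← hCe, hx3]
    have : x1 ≠ 0 := div_ne_zero hN hD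
    field_simp
  · simp only [px_some]; rw [← hTe, ht]
    have : x1 ≠ 0 := div_ne_zero hN hD
    field_simp

end triple

section degle

variable {K : Type*} [Field K] {L : Type*} [Field L] [Algebra (MvPolynomial (Fin 4) K) L]
  [IsFractionRing (MvPolynomial (Fin 4) K) L]

/-- `z = p / q` with forms `p, q` of total degree at most `B` -/
def DegLE (K : Type*) [Field K] {L : Type*} [Field L] [Algebra (MvPolynomial (Fin 4) K) L]
    (B : ℕ) (z : L) : Prop :=
  ∃ p q : MvPolynomial (Fin 4) K, q ≠ 0 ∧ p.totalDegree ≤ B ∧ q.totalDegree ≤ B ∧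
    z * algebraMap _ L q = algebraMap _ L p

lemma DegLE.mono {B C : ℕ} {z : L} (h : DegLE K B z) (hBC : B ≤ C) : DegLE K C z := by
  obtain ⟨p, q, hq, h1, h2, h3⟩ := h
  exact ⟨p, q, hq, h1.trans hBC, h2.trans hBC, h3⟩

lemma DegLE.add {B C : ℕ} {z w : L} (hz : DegLE K B z) (hw : DegLE K C w) :
    DegLE K (B + C) (z + w) := by
  obtain ⟨p, q, hq, h1, h2, h3⟩ := hz
  obtain ⟨p', q', hq', h1', h2', h3'⟩ := hw
  refine ⟨p * q' + p' * q, q * q', mul_ne_zero hq hq', ?_, ?_, ?_⟩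
  · refine (totalDegree_add _ _).trans (max_le ?_ ?_)
    · exact (totalDegree_mul _ _).trans (add_le_add h1 h2')
    · refine (totalDegree_mul _ _).trans ?_
      rw [add_comm B C]
      exact add_le_add h1' h2
  · exact (totalDegree_mul _ _).trans (add_le_add h2 h2')
  · simp only [map_mul, map_add]
    rw [← h3, ← h3']; ring

lemma DegLE.mul {B C : ℕ} {z w : L} (hz : DegLE K B z) (hw : DegLE K C w) :
    DegLE K (B + C) (z * w) := by
  obtain ⟨p, q, hq, h1, h2, h3⟩ := hz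
  obtain ⟨p', q', hq', h1', h2', h3'⟩ := hw
  refine ⟨p * p', q * q', mul_ne_zero hq hq', ?_, ?_, ?_⟩
  · exact (totalDegree_mul _ _).trans (add_le_add h1 h1')
  · exact (totalDegree_mul _ _).trans (add_le_add h2 h2')
  · simp only [map_mul]
    rw [← h3, ← h3']; ring

lemma DegLE.neg {B : ℕ} {z : L} (hz : DegLE K B z) : DegLE K B (-z) := by
  obtain ⟨p, q, hq, h1, h2, h3⟩ := hz
  refine ⟨-p, q, hq, by rwa [totalDegree_neg], h2, ?_⟩
  rw [map_neg, ← h3]; ring

lemma DegLE.sub {B C : ℕ} {z w : L} (hz : DegLE K B z) (hw : DegLE K C w) :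
    DegLE K (B + C) (z - w) := by
  rw [sub_eq_add_neg]; exact hz.add hw.neg

lemma DegLE.zero : DegLE K 0 (0 : L) := ⟨0, 1, one_ne_zero, by simp, by simp, by simp⟩

lemma DegLE.nat (n : ℕ) : DegLE K 0 (n : L) := by
  refine ⟨(n : MvPolynomial (Fin 4) K), 1, one_ne_zero, ?_, by simp, by simp⟩
  have : (n : MvPolynomial (Fin 4) K) = C (n : K) := by simp
  rw [this, totalDegree_C]

lemma DegLE.inv {B : ℕ} {z : L} (hz : DegLE K B z) : DegLE K B z⁻¹ := by
  obtain ⟨p, q, hq, h1, h2, h3⟩ := hz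
  have hinj := IsFractionRing.injective (MvPolynomial (Fin 4) K) L
  have hq' : algebraMap _ L q ≠ 0 := fun e => hq (hinj (by rw [e, map_zero]))
  by_cases hz0 : z = 0
  · rw [hz0, inv_zero]
    exact DegLE.zero.mono (Nat.zero_le _)
  · have hp : p ≠ 0 := by
      rintro rfl
      rw [map_zero] at h3
      rcases mul_eq_zero.mp h3 with h | h
      · exact hz0 h
      · exact hq' h
    refine ⟨q, p, hp, h2, h1, ?_⟩
    rw [← h3]; field_simp

lemma DegLE.div {B C : ℕ} {z w : L} (hz : DegLE K B z) (hw : DegLE K C w) :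
    DegLE K (B + C) (z / w) := by
  rw [div_eq_mul_inv]; exact hz.mul hw.inv

lemma DegLE.exists_of (z : L) : ∃ B, DegLE K B z := by
  obtain ⟨p, q, hq, h⟩ := IsFractionRing.div_surjective (A := MvPolynomial (Fin 4) K) z
  have hinj := IsFractionRing.injective (MvPolynomial (Fin 4) K) L
  have hq0 : q ≠ 0 := nonZeroDivisors.ne_zero hq
  have hq' : algebraMap _ L q ≠ 0 := fun e => hq0 (hinj (by rw [e, map_zero]))
  refine ⟨max p.totalDegree q.totalDegree, p, q, hq0, le_max_left _ _, le_max_right _ _, ?_⟩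
  rw [← h]; field_simp

/-- complexity of a point -/
def CX (K : Type*) [Field K] {L : Type*} [Field L] [Algebra (MvPolynomial (Fin 4) K) L]
    {k : L} (B : ℕ) (P : (Ek k).Point) : Prop := DegLE K B (px P) ∧ DegLE K B (py P)

variable {k : L}

lemma CX.mono {B C : ℕ} {P : (Ek k).Point} (h : CX K B P) (hBC : B ≤ C) : CX K C P :=
  ⟨h.1.mono hBC, h.2.mono hBC⟩

lemma CX.neg {B : ℕ} {P : (Ek k).Point} (h : CX K B P) : CX K B (-P) := by
  refine ⟨?_, ?_⟩
  · rw [px_neg]; exact h.1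
  · rw [py_neg]; exact h.2.neg

lemma CX.zero : CX K 0 (0 : (Ek k).Point) := ⟨DegLE.zero, DegLE.zero⟩

lemma CX.add [DecidableEq L] {B : ℕ} {P Q : (Ek k).Point} (hP : CX K B P) (hQ : CX K B Q) :
    CX K (16 * B) (P + Q) := by
  rcases P with _ | ⟨x1, y1, h1⟩
  · have : (WeierstrassCurve.Affine.Point.zero : (Ek k).Point) + Q = Q := zero_add Q
    rw [this]; exact hQ.mono (by omega)
  rcases Q with _ | ⟨x2, y2, h2⟩
  · have : (WeierstrassCurve.Affine.Point.some x1 y1 h1 : (Ek k).Point)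
        + WeierstrassCurve.Affine.Point.zero = .some x1 y1 h1 := add_zero _
    rw [this]; exact hP.mono (by omega)
  obtain ⟨hx1, hy1⟩ := hP
  obtain ⟨hx2, hy2⟩ := hQ
  simp only [px_some, py_some] at hx1 hy1 hx2 hy2
  by_cases hxy : x1 = x2 ∧ y1 = (Ek k).negY x2 y2
  · rw [WeierstrassCurve.Affine.Point.add_of_Y_eq hxy.1 hxy.2]
    exact CX.zero.mono (Nat.zero_le _)
  · rw [WeierstrassCurve.Affine.Point.add_some hxy]
    have hs : DegLE K (4 * B) ((Ek k).slope x1 x2 y1 y2) := by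
      by_cases hx : x1 = x2
      · have hy : y1 ≠ (Ek k).negY x2 y2 := fun h => hxy ⟨hx, h⟩
        rw [WeierstrassCurve.Affine.slope_of_Y_ne hx hy]
        simp only [Ek, WeierstrassCurve.Affine.negY, mul_zero, zero_mul, add_zero, sub_zero]
        have h3 := ((DegLE.nat (K := K) (L := L) 3).mul (hx1.mul hx1)).div (hy1.sub hy1.neg)
        have e : ((3 : ℕ) : L) * (x1 * x1) = 3 * x1 ^ 2 := by push_cast; ring
        rw [e] at h3
        exact h3.mono (by omega)
      · rw [WeierstrassCurve.Affine.slope_of_X_ne hx]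
        exact ((hy1.sub hy2).div (hx1.sub hx2)).mono (by omega)
    set l := (Ek k).slope x1 x2 y1 y2 with hl
    have hX : DegLE K (10 * B) ((Ek k).addX x1 x2 l) := by
      simp only [Ek, WeierstrassCurve.Affine.addX, zero_mul, add_zero, sub_zero]
      rw [pow_two]
      exact (((hs.mul hs).sub hx1).sub hx2).mono (by omega)
    refine ⟨hX.mono (by omega), ?_⟩
    simp only [py_some]
    have hY : (Ek k).addY x1 x2 y1 l = -(l * ((Ek k).addX x1 x2 l - x1) + y1) := by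
      simp only [Ek, WeierstrassCurve.Affine.addY, WeierstrassCurve.Affine.negAddY,
        WeierstrassCurve.Affine.negY, zero_mul, sub_zero]
    rw [hY]
    exact ((hs.mul (hX.sub hx1)).add hy1).neg.mono (by omega)

lemma CX.nsmul [DecidableEq L] {B : ℕ} {P : (Ek k).Point} (hP : CX K B P) (m : ℕ) :
    ∀ n, n < 2 ^ m → CX K (256 ^ m * B) (n • P) := by
  induction m with
  | zero =>
    intro n hn
    have : n = 0 := by simpa using hn
    rw [this, zero_nsmul]
    exact CX.zero.mono (Nat.zero_le _)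
  | succ m ih =>
    intro n hn
    have h1 : n / 2 < 2 ^ m := by
      rw [pow_succ] at hn
      omega
    have h2 := (ih _ h1).add (ih _ h1)
    have h4 : B ≤ 256 ^ m * B := Nat.le_mul_of_pos_left _ (by positivity)
    have h5 : CX K (256 ^ (m + 1) * B) ((n / 2) • P + (n / 2) • P + (n % 2) • P) := by
      have h6 : CX K (16 * (256 ^ m * B)) ((n % 2) • P) := by
        rcases Nat.mod_two_eq_zero_or_one n with h | h
        · rw [h, zero_nsmul]; exact CX.zero.mono (Nat.zero_le _)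
        · rw [h, one_nsmul]; exact hP.mono (by omega)
      have e : 16 * (16 * (256 ^ m * B)) = 256 ^ (m + 1) * B := by ring
      rw [← e]
      exact h2.add h6
    have h7 : (n / 2) • P + (n / 2) • P + (n % 2) • P = n • P := by
      rw [← add_nsmul, ← add_nsmul]
      congr 1
      omega
    rwa [h7] at h5

end degle

section upper

/-- the second point after `n` steps -/
def An {G : Type*} [AddCommGroup G] (P1 P2 : G) (n : ℕ) : G := P2 + n • P1

/-- the third point after `n` steps -/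
def Bn {G : Type*} [AddCommGroup G] (P1 P2 P3 : G) (n : ℕ) : G :=
  P3 - n • P2 - ((n + 1).choose 2) • P1

lemma An_succ {G : Type*} [AddCommGroup G] (P1 P2 : G) (n : ℕ) :
    An P1 P2 (n + 1) = P1 + An P1 P2 n := by
  simp only [An, succ_nsmul]; abel

lemma Bn_succ {G : Type*} [AddCommGroup G] (P1 P2 P3 : G) (n : ℕ) :
    Bn P1 P2 P3 (n + 1) = Bn P1 P2 P3 n - (P1 + An P1 P2 n) := by
  have h : (n + 1 + 1).choose 2 = (n + 1) + (n + 1).choose 2 := by
    rw [Nat.choose_succ_succ (n + 1) 1, Nat.choose_one_right]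
  simp only [An, Bn, h, add_nsmul, succ_nsmul]; abel

variable {K : Type*} [Field K] {f : Fin 4 → MvPolynomial (Fin 4) K}
  {q : MvPolynomial (Fin 4) K}

/-- one step for the reduced map `f` in terms of `FF` -/
lemma Co_f {L : Type*} [Field L] [Algebra K L] {k : L} {P1 P2 P3 : (Ek k).Point}
    {v : Fin 4 → L} (hf : ∀ i, FF (X : Fin 4 → MvPolynomial (Fin 4) K) i = q * f i)
    (h : Co P1 P2 P3 (FF v)) (hne : FF v 0 ≠ 0) :
    Co P1 P2 P3 (fun i => aeval v (f i)) := by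
  have h1 : ∀ i, FF v i = aeval v q * aeval v (f i) := by
    intro i
    rw [← map_mul, ← hf i, aeval_FF]
    simp only [aeval_X]
  have hq : aeval v q ≠ 0 := by
    intro e
    apply hne
    rw [h1, e, zero_mul]
  refine h.scale (inv_ne_zero hq) fun i => ?_
  rw [h1]
  field_simp

lemma Co.zero_ne {L : Type*} [Field L] {k : L} {P1 P2 P3 : (Ek k).Point}
    {v : Fin 4 → L} (h : Co P1 P2 P3 v) (hnd : ND3 P1 P2 P3) : v 0 ≠ 0 := by
  obtain ⟨c, l, m, hc, hl, hm, h0, -⟩ := h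
  rw [h0]
  exact mul_ne_zero hc (mul_ne_zero (slopes_ne hnd hl hm).1 hnd.x1)

variable {L : Type*} [Field L] [DecidableEq L] [Algebra (MvPolynomial (Fin 4) K) L]
  [IsFractionRing (MvPolynomial (Fin 4) K) L] [Algebra K L]
  [IsScalarTower K (MvPolynomial (Fin 4) K) L]

omit [DecidableEq L] in
lemma indep_algebraMap {v : Fin 4 → MvPolynomial (Fin 4) K} (hv : AlgebraicIndependent K v) :
    AlgebraicIndependent K (fun i => algebraMap (MvPolynomial (Fin 4) K) L (v i)) := by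
  have hinj := IsFractionRing.injective (MvPolynomial (Fin 4) K) L
  exact hv.map' (f := IsScalarTower.toAlgHom K (MvPolynomial (Fin 4) K) L) hinj

omit [DecidableEq L] in
lemma iter_succ_algebraMap (n : ℕ) (i : Fin 4) :
    algebraMap (MvPolynomial (Fin 4) K) L (iter (N := 3) f (n + 1) i)
      = aeval (fun j => algebraMap (MvPolynomial (Fin 4) K) L (iter (N := 3) f n j)) (f i) := by
  have h1 : iter (N := 3) f (n + 1) i = aeval (iter (N := 3) f n) (f i) := rfl
  rw [h1]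
  have := MvPolynomial.map_aeval (R := K) (iter (N := 3) f n)
    (algebraMap (MvPolynomial (Fin 4) K) L) (f i)
  rw [this, aeval_def, IsScalarTower.algebraMap_eq K (MvPolynomial (Fin 4) K) L]
  rfl

lemma generic_orbit {k : L} {P1 P2 P3 : (Ek k).Point}
    (hf : ∀ i, FF (X : Fin 4 → MvPolynomial (Fin 4) K) i = q * f i)
    (hfi : AlgebraicIndependent K f)
    (h0 : Co P1 P2 P3 (fun j => algebraMap (MvPolynomial (Fin 4) K) L (X j))) (n : ℕ) :
    ND3 P1 (An P1 P2 n) (Bn P1 P2 P3 n) ∧ Co P1 (An P1 P2 n) (Bn P1 P2 P3 n)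
      (fun j => algebraMap (MvPolynomial (Fin 4) K) L (iter (N := 3) f n j)) := by
  induction n with
  | zero =>
    have e1 : An P1 P2 0 = P2 := by simp [An]
    have e2 : Bn P1 P2 P3 0 = P3 := by simp [Bn]
    rw [e1, e2]
    refine ⟨ND3_of_NDv h0 (NDv_of_indep (indep_algebraMap (algebraicIndependent_X (Fin 4) K))), h0⟩
  | succ n ih =>
    obtain ⟨hnd, hco⟩ := ih
    have hi := indep_algebraMap (L := L) (iter_indep (N := 3) hfi n)
    obtain ⟨hnd', hco'⟩ := step_generic hi hnd hco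
    rw [An_succ, Bn_succ]
    refine ⟨hnd', ?_⟩
    have := Co_f hf hco' (hco'.zero_ne hnd')
    simp only [iter_succ_algebraMap]
    exact this

lemma orbit_CX {k : L} {P1 P2 P3 : (Ek k).Point} {B : ℕ} (h1 : CX K B P1) (h2 : CX K B P2)
    (h3 : CX K B P3) (n : ℕ) : ∃ E, E ≤ 65536 * (n + 1) ^ 16 * B ∧
      CX K E P1 ∧ CX K E (An P1 P2 n) ∧ CX K E (Bn P1 P2 P3 n) := by
  set M := (n + 1) ^ 2 with hM
  set m := Nat.log 2 M + 1 with hm
  have hM0 : M ≠ 0 := by positivity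
  have hlt : M < 2 ^ m := Nat.lt_pow_succ_log_self (by norm_num) M
  have hle : 2 ^ m ≤ 2 * M := by
    rw [hm, pow_succ]
    have := Nat.pow_log_le_self 2 hM0
    omega
  have hn : n < 2 ^ m := lt_of_le_of_lt (by rw [hM]; nlinarith) hlt
  have hc : (n + 1).choose 2 < 2 ^ m := by
    refine lt_of_le_of_lt ?_ hlt
    rw [Nat.choose_two_right, hM]
    refine (Nat.div_le_self _ _).trans ?_
    rw [pow_two]
    exact Nat.mul_le_mul le_rfl (by omega)
  set E0 := 256 ^ m * B with hE0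
  have hB : B ≤ E0 := Nat.le_mul_of_pos_left _ (by positivity)
  have a1 := (h1.nsmul m n hn)
  have a2 := (h2.nsmul m n hn)
  have a3 := (h1.nsmul m _ hc)
  rw [← hE0] at a1 a2 a3
  have b1 : CX K (16 * E0) (An P1 P2 n) := (h2.mono hB).add a1
  have b2 : CX K (16 * E0) (P3 - n • P2) := by
    rw [sub_eq_add_neg]; exact (h3.mono hB).add a2.neg
  have b3 : CX K (16 * (16 * E0)) (Bn P1 P2 P3 n) := by
    rw [Bn, sub_eq_add_neg]; exact b2.add ((a3.mono (by omega)).neg)
  refine ⟨16 * (16 * E0), ?_, h1.mono (by omega), b1.mono (by omega), b3⟩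
  have hp : 256 ^ m ≤ 256 * (n + 1) ^ 16 := by
    calc 256 ^ m = (2 ^ m) ^ 8 := by rw [← pow_mul, mul_comm, pow_mul]; norm_num
      _ ≤ (2 * M) ^ 8 := Nat.pow_le_pow_left hle 8
      _ = 256 * (n + 1) ^ 16 := by rw [hM]; ring
  calc 16 * (16 * E0) = 256 * 256 ^ m * B := by rw [hE0]; ring
    _ ≤ 256 * (256 * (n + 1) ^ 16) * B := by gcongr
    _ = 65536 * (n + 1) ^ 16 * B := by ring

lemma iterate_degree_le {k : L} {P1 P2 P3 : (Ek k).Point}
    (hf : ∀ i, FF (X : Fin 4 → MvPolynomial (Fin 4) K) i = q * f i)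
    (hfi : AlgebraicIndependent K f)
    (h0 : Co P1 P2 P3 (fun j => algebraMap (MvPolynomial (Fin 4) K) L (X j))) :
    ∃ C : ℕ, ∀ n e g, IsIterate (N := 3) f n e g → e ≤ C * (n + 1) ^ 16 := by
  have hB : ∃ B, CX K B P1 ∧ CX K B P2 ∧ CX K B P3 := by
    obtain ⟨B1, hB1⟩ := DegLE.exists_of (K := K) (px P1)
    obtain ⟨B2, hB2⟩ := DegLE.exists_of (K := K) (px P2)
    obtain ⟨B3, hB3⟩ := DegLE.exists_of (K := K) (px P3)
    obtain ⟨B4, hB4⟩ := DegLE.exists_of (K := K) (py P1)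
    obtain ⟨B5, hB5⟩ := DegLE.exists_of (K := K) (py P2)
    obtain ⟨B6, hB6⟩ := DegLE.exists_of (K := K) (py P3)
    exact ⟨B1 + B2 + B3 + B4 + B5 + B6, ⟨hB1.mono (by omega), hB4.mono (by omega)⟩,
      ⟨hB2.mono (by omega), hB5.mono (by omega)⟩, ⟨hB3.mono (by omega), hB6.mono (by omega)⟩⟩
  obtain ⟨B, hB1, hB2, hB3⟩ := hB
  refine ⟨24 * 65536 * B, fun n e g hg => ?_⟩
  obtain ⟨E, hE, c1, c2, c3⟩ := orbit_CX hB1 hB2 hB3 n
  obtain ⟨hnd, hco⟩ := generic_orbit hf hfi h0 n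
  set Q2 := An P1 P2 n
  set Q3 := Bn P1 P2 P3 n
  set v : Fin 4 → L := fun j => algebraMap (MvPolynomial (Fin 4) K) L (iter (N := 3) f n j)
    with hv
  have hv0 := hco.zero_ne hnd
  obtain ⟨c, l, m, hc, hl, hm, e0, e1, e2, e3⟩ := hco
  obtain ⟨hl0, hm0⟩ := slopes_ne hnd hl hm
  have hx1 := hnd.x1
  have hx2 : px Q2 - px P1 ≠ 0 := sub_ne_zero.mpr hnd.x12.symm
  have hx3 : px Q3 - px P1 ≠ 0 := sub_ne_zero.mpr hnd.x13.symm
  have r1 : DegLE K (8 * E) (v 1 / v 0) := by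
    have : v 1 / v 0 = px Q2 / px P1 := by rw [e0, e1]; field_simp
    rw [this]; exact (c2.1.div c1.1).mono (by omega)
  have r2 : DegLE K (8 * E) (v 2 / v 0) := by
    have : v 2 / v 0 = px Q3 / px P1 := by rw [e0, e2]; field_simp
    rw [this]; exact (c3.1.div c1.1).mono (by omega)
  have r3 : DegLE K (8 * E) (v 3 / v 0) := by
    have : v 3 / v 0 = ((py Q3 - py P1) / (px Q3 - px P1)) / ((py Q2 - py P1) / (px Q2 - px P1)) := by
      rw [e0, e3, ← hl, ← hm]; field_simp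
    rw [this]
    exact (((c3.2.sub c1.2).div (c3.1.sub c1.1)).div ((c2.2.sub c1.2).div (c2.1.sub c1.1))).mono
      (by omega)
  obtain ⟨p1, q1, hq1, dp1, dq1, s1⟩ := r1
  obtain ⟨p2, q2, hq2, dp2, dq2, s2⟩ := r2
  obtain ⟨p3, q3, hq3, dp3, dq3, s3⟩ := r3
  have hinj := IsFractionRing.injective (MvPolynomial (Fin 4) K) L
  set S : Fin 4 → MvPolynomial (Fin 4) K :=
    ![q1 * q2 * q3, p1 * q2 * q3, q1 * p2 * q3, q1 * q2 * p3] with hS
  have hSv : ∀ j, algebraMap _ L (S j) * v 0 = v j * algebraMap _ L (q1 * q2 * q3) := by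
    intro j
    fin_cases j
    · simp [hS]; ring
    · simp only [hS, Fin.mk_one, Matrix.cons_val_one, Matrix.cons_val_zero, map_mul, ← s1]
      field_simp
    · simp only [hS, Fin.reduceFinMk, Matrix.cons_val, map_mul, ← s2]
      field_simp
    · simp only [hS, Fin.reduceFinMk, Matrix.cons_val, map_mul, ← s3]
      field_simp
  obtain ⟨Q, hQ0, hQ⟩ := hg.eq
  have hprop : ∀ i j, S i * g j = S j * g i := by
    intro i j
    have h1 : S i * iter (N := 3) f n j = S j * iter (N := 3) f n i := by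
      apply hinj
      rw [map_mul, map_mul]
      have h2 := hSv i
      have h3 := hSv j
      apply mul_right_cancel₀ hv0
      change algebraMap _ L (S i) * v j * v 0 = algebraMap _ L (S j) * v i * v 0
      linear_combination v j * h2 - v i * h3
    rw [hQ, hQ] at h1
    apply mul_left_cancel₀ hQ0
    linear_combination h1
  have hdeg : ∀ i, (S i).totalDegree ≤ 24 * E := by
    have t3 : ∀ a b c : MvPolynomial (Fin 4) K, a.totalDegree ≤ 8 * E → b.totalDegree ≤ 8 * E →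
        c.totalDegree ≤ 8 * E → (a * b * c).totalDegree ≤ 24 * E := by
      intro a b c ha hb hc
      have h1 := totalDegree_mul (a * b) c
      have h2 := totalDegree_mul a b
      omega
    intro i
    fin_cases i
    · exact t3 _ _ _ dq1 dq2 dq3
    · exact t3 _ _ _ dp1 dq2 dq3
    · exact t3 _ _ _ dq1 dp2 dq3
    · exact t3 _ _ _ dq1 dq2 dp3
  have hSne : ∃ i, S i ≠ 0 := ⟨0, mul_ne_zero (mul_ne_zero hq1 hq2) hq3⟩
  have := hg.isMap.degree_le hSne hprop hdeg
  calc e ≤ 24 * E := this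
    _ ≤ 24 * (65536 * (n + 1) ^ 16 * B) := by gcongr
    _ = 24 * 65536 * B * (n + 1) ^ 16 := by ring

end upper

end partGeneric

/-! ### A curve of triples and the lower bound -/

section partLower

open WeierstrassCurve

section omega

variable {L : Type*} [Field L] [DecidableEq L] {k : L}

lemma doubling {P : (Ek k).Point} (h2 : (2 : L) ≠ 0) (hP : P ≠ 0) (hy : py P ≠ 0) :
    P + P ≠ 0 ∧ px (P + P) = (3 * px P ^ 2 / (2 * py P)) ^ 2 - 2 * px P ∧
      py (P + P) = -(3 * px P ^ 2 / (2 * py P) * (px (P + P) - px P) + py P) := by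
  rcases P with _ | ⟨x, y, h⟩
  · exact absurd rfl hP
  simp only [px_some, py_some] at hy ⊢
  have hny : y ≠ (Ek k).negY x y := by
    simp only [Ek, Affine.negY, zero_mul, sub_zero]
    intro e
    have : 2 * y = 0 := by linear_combination e
    rcases mul_eq_zero.mp this with h' | h'
    · exact h2 h'
    · exact hy h'
  have hs : (Ek k).slope x x y y = 3 * x ^ 2 / (2 * y) := by
    rw [Affine.slope_of_Y_ne rfl hny]
    simp only [Ek, Affine.negY, mul_zero, zero_mul, add_zero, sub_zero]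
    congr 1
    ring
  rw [Affine.Point.add_self_of_Y_ne hny]
  refine ⟨Affine.Point.some_ne_zero _, ?_, ?_⟩
  · simp only [px_some, hs]
    simp [Affine.addX, Ek]
    ring
  · simp only [px_some, py_some, hs]
    simp [Affine.addX, Affine.addY, Affine.negAddY, Affine.negY, Ek]
    try ring

/-- the automorphism `(x, y) ↦ (w x, y)`, `w³ = 1` -/
def om (w : L) (hw : w ^ 3 = 1) : (Ek k).Point → (Ek k).Point
  | .zero => .zero
  | .some x y h => .some (w * x) y (by
      rw [Affine.nonsingular_iff] at h ⊢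
      refine ⟨?_, ?_⟩
      · rw [Ek_equation]
        have := Ek_equation.mp h.1
        rw [this]
        linear_combination (-x ^ 3) * hw
      · simp only [Ek, zero_mul, mul_zero, add_zero, sub_zero] at h ⊢
        rcases h.2 with h' | h'
        · left
          intro e
          apply h'
          have hw0 : w ≠ 0 := by
            rintro rfl
            norm_num at hw
          have : w ^ 2 * (3 * x ^ 2) = 0 := by linear_combination -e
          rcases mul_eq_zero.mp this with h'' | h''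
          · exact absurd h'' (pow_ne_zero _ hw0)
          · exact h''.symm
        · exact Or.inr h')

lemma om_zero (w : L) (hw : w ^ 3 = 1) : om (k := k) w hw 0 = 0 := rfl

lemma om_neg (w : L) (hw : w ^ 3 = 1) (P : (Ek k).Point) : om w hw (-P) = -om w hw P := by
  rcases P with _ | ⟨x, y, h⟩
  · rfl
  · rw [Affine.Point.neg_some]
    simp only [om]
    rw [Affine.Point.neg_some]
    simp [Affine.negY, Ek]

lemma om_add (w : L) (hw : w ^ 3 = 1) (P Q : (Ek k).Point) :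
    om w hw (P + Q) = om w hw P + om w hw Q := by
  have hw0 : w ≠ 0 := by
    rintro rfl
    norm_num at hw
  rcases P with _ | ⟨x1, y1, h1⟩
  · have e1 : (Affine.Point.zero : (Ek k).Point) + Q = Q := zero_add Q
    have e2 : om (k := k) w hw Affine.Point.zero = 0 := rfl
    rw [e1, e2, zero_add]
  rcases Q with _ | ⟨x2, y2, h2⟩
  · have e1 : (Affine.Point.some x1 y1 h1 : (Ek k).Point) + Affine.Point.zero
        = .some x1 y1 h1 := add_zero _
    have e2 : om (k := k) w hw Affine.Point.zero = 0 := rfl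
    rw [e1, e2, add_zero]
  by_cases hxy : x1 = x2 ∧ y1 = (Ek k).negY x2 y2
  · rw [Affine.Point.add_of_Y_eq hxy.1 hxy.2, om_zero]
    simp only [om]
    rw [Affine.Point.add_of_Y_eq]
    · rw [hxy.1]
    · rw [hxy.2]; simp [Affine.negY, Ek]
  · have hxy' : ¬(w * x1 = w * x2 ∧ y1 = (Ek k).negY (w * x2) y2) := by
      rintro ⟨e1, e2⟩
      apply hxy
      refine ⟨mul_left_cancel₀ hw0 e1, ?_⟩
      rw [e2]; simp [Affine.negY, Ek]
    have hs : (Ek k).slope (w * x1) (w * x2) y1 y2 = w ^ 2 * (Ek k).slope x1 x2 y1 y2 := by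
      by_cases hx : x1 = x2
      · have hy : y1 ≠ (Ek k).negY x2 y2 := fun h => hxy ⟨hx, h⟩
        have hy' : y1 ≠ (Ek k).negY (w * x2) y2 := by
          intro e; apply hy; rw [e]; simp [Affine.negY, Ek]
        rw [Affine.slope_of_Y_ne hx hy, Affine.slope_of_Y_ne (by rw [hx]) hy']
        simp only [Ek, Affine.negY, mul_zero, zero_mul, add_zero, sub_zero]
        ring
      · have hx' : w * x1 ≠ w * x2 := fun e => hx (mul_left_cancel₀ hw0 e)
        rw [Affine.slope_of_X_ne hx, Affine.slope_of_X_ne hx']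
        have : x1 - x2 ≠ 0 := sub_ne_zero.mpr hx
        have h3 : w * x1 - w * x2 ≠ 0 := sub_ne_zero.mpr hx'
        field_simp
        linear_combination (-(y1 - y2)) * hw
    rw [Affine.Point.add_some hxy]
    simp only [om]
    rw [Affine.Point.add_some hxy']
    rw [Affine.Point.some.injEq]
    rw [hs]
    generalize (Ek k).slope x1 x2 y1 y2 = l
    constructor
    · simp only [Affine.addX, Ek, zero_mul, add_zero, sub_zero]
      linear_combination (-w * l ^ 2) * hw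
    · simp only [Affine.addX, Affine.addY, Affine.negAddY, Affine.negY, Ek, zero_mul, add_zero,
        sub_zero]
      linear_combination (l ^ 3 * (1 + w ^ 3) - l * (2 * x1 + x2)) * hw

lemma point_ext {P Q : (Ek k).Point} (hP : P ≠ 0) (hQ : Q ≠ 0) (hx : px P = px Q)
    (hy : py P = py Q) : P = Q := by
  rcases P with _ | ⟨x1, y1, h1⟩
  · exact absurd rfl hP
  rcases Q with _ | ⟨x2, y2, h2⟩
  · exact absurd rfl hQ
  simp only [px_some, py_some] at hx hy
  subst hx; subst hy; rfl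

lemma om_px (w : L) (hw : w ^ 3 = 1) (P : (Ek k).Point) : px (om w hw P) = w * px P := by
  rcases P with _ | ⟨x, y, h⟩
  · exact (mul_zero w).symm
  · rfl

lemma om_py (w : L) (hw : w ^ 3 = 1) (P : (Ek k).Point) : py (om w hw P) = py P := by
  rcases P with _ | ⟨x, y, h⟩
  · rfl
  · rfl

lemma om_ne (w : L) (hw : w ^ 3 = 1) {P : (Ek k).Point} (hP : P ≠ 0) : om w hw P ≠ 0 := by
  rcases P with _ | ⟨x, y, h⟩
  · exact absurd rfl hP
  · exact Affine.Point.some_ne_zero _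

lemma om_sum (h3 : (3 : L) ≠ 0) {w : L} (hw2 : w ^ 2 + w + 1 = 0) (hw : w ^ 3 = 1)
    {P : (Ek k).Point} (hP : px P ≠ 0) : om w hw (om w hw P) = -(P + om w hw P) := by
  have hP0 : P ≠ 0 := ne_zero_of_px hP
  have hx : px P ≠ px (om w hw P) := by
    rw [om_px]
    intro e
    have h1 : (w - 1) * px P = 0 := by linear_combination -e
    rcases mul_eq_zero.mp h1 with h | h
    · apply h3
      have : w = 1 := by linear_combination h
      rw [this] at hw2
      linear_combination hw2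
    · exact hP h
  obtain ⟨hne, hX, hY⟩ := add_generic hP0 (om_ne w hw hP0) hx (l := 0)
    (by rw [om_py]; ring)
  refine point_ext (om_ne w hw (om_ne w hw hP0)) (neg_ne_zero.mpr hne) ?_ ?_
  · rw [hX, om_px, om_px]; linear_combination px P * hw2
  · rw [hY, om_py, om_py]; ring

variable {P : (Ek k).Point}

lemma py_inj (h3 : (3 : L) ≠ 0) (hP : px P ≠ 0) (hinf : ∀ n : ℤ, n ≠ 0 → n • P ≠ 0)
    {a b : ℤ} (ha : a ≠ 0) (hb : b ≠ 0) (hab : a ≠ b) : py (a • P) ≠ py (b • P) := by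
  intro hy
  have hQ := hinf a ha
  have hQ' := hinf b hb
  have e1 := curve_eq hQ
  have e2 := curve_eq hQ'
  have hcube : px (a • P) ^ 3 = px (b • P) ^ 3 := by
    rw [hy] at e1
    linear_combination e2 - e1
  have hxne : px (a • P) ≠ px (b • P) := by
    intro hx
    have h1 := point_ext hQ hQ' hx hy
    apply hinf (a - b) (sub_ne_zero.mpr hab)
    rw [sub_zsmul, h1, add_neg_cancel]
  have hquad : px (a • P) ^ 2 + px (a • P) * px (b • P) + px (b • P) ^ 2 = 0 := by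
    have h1 : (px (a • P) - px (b • P)) *
        (px (a • P) ^ 2 + px (a • P) * px (b • P) + px (b • P) ^ 2) = 0 := by
      linear_combination hcube
    rcases mul_eq_zero.mp h1 with h | h
    · exact absurd (sub_eq_zero.mp h) hxne
    · exact h
  have hb0 : px (b • P) ≠ 0 := by
    intro h
    rw [h] at hquad
    have : px (a • P) ^ 2 = 0 := by linear_combination hquad
    have := pow_eq_zero_iff (two_ne_zero) |>.mp this
    exact hxne (by rw [this, h])
  obtain ⟨w, hwd⟩ : ∃ w, w = px (a • P) / px (b • P) := ⟨_, rfl⟩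
  have hwx : px (a • P) = w * px (b • P) := by rw [hwd]; field_simp
  have hw2 : w ^ 2 + w + 1 = 0 := by
    have h1 : (w ^ 2 + w + 1) * px (b • P) ^ 2 = 0 := by
      rw [hwx] at hquad
      linear_combination hquad
    rcases mul_eq_zero.mp h1 with h | h
    · exact h
    · exact absurd h (pow_ne_zero _ hb0)
  have hw : w ^ 3 = 1 := by linear_combination (w - 1) * hw2
  let om' : (Ek k).Point →+ (Ek k).Point := AddMonoidHom.mk' (om w hw) (om_add w hw)
  have hom' : ∀ Q, om' Q = om w hw Q := fun _ => rfl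
  have hQQ : a • P = om' (b • P) := by
    rw [hom']
    refine point_ext hQ (om_ne w hw hQ') ?_ ?_
    · rw [om_px, hwx]
    · rw [om_py, hy]
  obtain ⟨B, hB⟩ : ∃ B, B = om' P := ⟨_, rfl⟩
  have h1 : a • P = b • B := by rw [hQQ, map_zsmul, hB]
  have h2 : om' B = -(P + B) := by
    rw [hB, hom', hom']
    exact om_sum h3 hw2 hw hP
  have h4 : a • B = b • (-(P + B)) := by
    rw [← h2, ← map_zsmul, ← h1, map_zsmul, hB]
  have h5 : (a ^ 2 + a * b + b ^ 2) • P = 0 := by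
    have e1 : (a ^ 2 + a * b + b ^ 2) • P = a • (a • P) + b • (a • P) + b • (b • P) := by
      simp only [add_zsmul, mul_zsmul, pow_two]
      congr 2
      rw [← mul_zsmul, ← mul_zsmul, mul_comm]
    have e2 : a • (b • B) = b • (a • B) := by
      rw [← mul_zsmul, ← mul_zsmul, mul_comm]
    rw [e1, h1, e2, h4]
    simp only [smul_neg, smul_add]
    abel
  refine hinf _ ?_ h5
  intro h
  have h6 : (2 * a + b) ^ 2 + 3 * b ^ 2 = 0 := by linear_combination 4 * h
  have h7 : 0 < b ^ 2 := by positivity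
  nlinarith [sq_nonneg (2 * a + b)]

lemma px_ne (h2 : (2 : L) ≠ 0) (hk : k ≠ 0) (hinf : ∀ n : ℤ, n ≠ 0 → n • P ≠ 0)
    {a : ℤ} (ha : a ≠ 0) : px (a • P) ≠ 0 := by
  intro hx
  have hQ := hinf a ha
  have e1 := curve_eq hQ
  have hy : py (a • P) ≠ 0 := by
    intro h
    apply hk
    rw [h, hx] at e1
    linear_combination -e1
  obtain ⟨hne, hX, hY⟩ := doubling h2 hQ hy
  rw [hx] at hX hY
  have hX' : px (a • P + a • P) = 0 := by rw [hX]; ring
  have h1 : a • P + a • P = -(a • P) := by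
    refine point_ext hne (neg_ne_zero.mpr hQ) ?_ ?_
    · rw [px_neg, hx, hX']
    · rw [py_neg, hY, hX']; ring
  apply hinf (3 * a) (by omega)
  have : (3 * a) • P = (a • P + a • P) + a • P := by
    rw [← add_zsmul, ← add_zsmul]; congr 1; ring
  rw [this, h1]
  abel

lemma px_inj (hinf : ∀ n : ℤ, n ≠ 0 → n • P ≠ 0)
    {a b : ℤ} (ha : a ≠ 0) (hb : b ≠ 0) (hab : a ≠ b) (hab' : a ≠ -b) :
    px (a • P) ≠ px (b • P) := by
  intro hx
  rcases eq_or_neg_of_px (hinf a ha) (hinf b hb) hx with h | h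
  · apply hinf (a - b) (sub_ne_zero.mpr hab)
    rw [sub_zsmul, h, add_neg_cancel]
  · apply hinf (a + b) (fun h => hab' (by omega))
    rw [add_zsmul, h, neg_add_cancel]

lemma nd3_multiples (h2 : (2 : L) ≠ 0) (h3 : (3 : L) ≠ 0) (hk : k ≠ 0) (hP : px P ≠ 0)
    (hinf : ∀ n : ℤ, n ≠ 0 → n • P ≠ 0) {a b c : ℤ} (ha : a ≠ 0) (hb : b ≠ 0) (hc : c ≠ 0)
    (hab : a ≠ b) (hab' : a ≠ -b) (hac : a ≠ c) (hac' : a ≠ -c) (hbc : b ≠ c) (hbc' : b ≠ -c) :
    ND3 (a • P) (b • P) (c • P) :=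
  ⟨px_ne h2 hk hinf ha, px_ne h2 hk hinf hb, px_ne h2 hk hinf hc,
    px_inj hinf ha hb hab hab', px_inj hinf ha hc hac hac', px_inj hinf hb hc hbc hbc',
    py_inj h3 hP hinf ha hb hab, py_inj h3 hP hinf ha hc hac, py_inj h3 hP hinf hb hc hbc⟩

end omega

section dbl

open Polynomial

variable {K : Type*} [Field K] {F : Type*} [Field F] [Algebra K[X] F] [IsFractionRing K[X] F]
  [DecidableEq F]

/-- the curve over `K(x)` and its point `(s x, s²)`, `s = x³ + 1`, `k = s³` -/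
noncomputable def ss (K : Type*) [Field K] : K[X] := X ^ 3 + 1

lemma natDegree_ss : (ss K).natDegree = 3 := by
  unfold ss
  compute_degree!

lemma ss_ne : ss K ≠ 0 := by
  intro h
  have := natDegree_ss (K := K)
  rw [h, natDegree_zero] at this
  omega

lemma alg_ne {p : K[X]} (hp : p ≠ 0) : algebraMap K[X] F p ≠ 0 := by
  intro h
  exact hp (IsFractionRing.injective K[X] F (by rw [h, map_zero]))

noncomputable def kk (K : Type*) [Field K] (F : Type*) [Field F] [Algebra K[X] F] : F :=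
  algebraMap K[X] F (ss K) ^ 3

lemma kk_ne : kk K F ≠ 0 := pow_ne_zero _ (alg_ne ss_ne)

/-- the base point -/
noncomputable def PP (h2 : (2 : F) ≠ 0) (h3 : (3 : F) ≠ 0) : (Ek (kk K F)).Point :=
  .some (algebraMap K[X] F (ss K * X)) (algebraMap K[X] F (ss K ^ 2))
    (Ek_nonsingular h2 kk_ne (by
      rw [kk, ← map_pow, ← map_pow, ← map_pow, ← map_add]
      congr 1
      have : (ss K : K[X]) = X ^ 3 + 1 := rfl
      linear_combination (-(ss K) ^ 3) * this + (2 * ss K ^ 3) * this) h3)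

lemma coprime_of_unit {a b : K[X]} (h : IsUnit a) : IsCoprime a b := by
  obtain ⟨u, rfl⟩ := h
  exact ⟨↑u⁻¹, 0, by simp⟩

lemma coprime_step (h2 : (2 : K) ≠ 0) (h3 : (3 : K) ≠ 0) {N D : K[X]} (h : IsCoprime N D) :
    IsCoprime (N ^ 4 - 8 * N * D ^ 3) (4 * D * (N ^ 3 + D ^ 3)) := by
  have u4 : IsUnit (4 : K[X]) := by
    have h4 : (4 : K) ≠ 0 := by
      have : (4 : K) = 2 * 2 := by norm_num
      rw [this]; exact mul_ne_zero h2 h2
    have : (4 : K[X]) = C (4 : K) := (map_ofNat C 4).symm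
    rw [this]
    exact isUnit_C.mpr (isUnit_iff_ne_zero.mpr h4)
  have u9 : IsUnit (-9 : K[X]) := by
    have h9 : (-9 : K) ≠ 0 := by
      have : (-9 : K) = -(3 * 3) := by norm_num
      rw [this]; exact neg_ne_zero.mpr (mul_ne_zero h3 h3)
    have : (-9 : K[X]) = C (-9 : K) := by rw [map_neg, map_ofNat]
    rw [this]
    exact isUnit_C.mpr (isUnit_iff_ne_zero.mpr h9)
  have a1 : IsCoprime (N ^ 4 - 8 * N * D ^ 3) D := by
    have h1 := (h.pow_left (m := 4)).add_mul_left_left (-8 * N * D ^ 2)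
    have e : N ^ 4 - 8 * N * D ^ 3 = N ^ 4 + D * (-8 * N * D ^ 2) := by ring
    rw [e]; exact h1
  have b1 : IsCoprime N (N ^ 3 + D ^ 3) := by
    have h1 := (h.pow_right (n := 3)).add_mul_left_right (N ^ 2)
    have e : N ^ 3 + D ^ 3 = D ^ 3 + N * N ^ 2 := by ring
    rw [e]; exact h1
  have b2 : IsCoprime D (N ^ 3 + D ^ 3) := by
    have h1 := (h.symm.pow_right (n := 3)).add_mul_left_right (D ^ 2)
    have e : N ^ 3 + D ^ 3 = N ^ 3 + D * D ^ 2 := by ring
    rw [e]; exact h1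
  have a2 : IsCoprime (N ^ 4 - 8 * N * D ^ 3) (N ^ 3 + D ^ 3) := by
    have h1 : IsCoprime (-9 * (N * D ^ 3)) (N ^ 3 + D ^ 3) := by
      refine IsCoprime.mul_left ?_ (b1.mul_left (b2.pow_left))
      exact coprime_of_unit u9
    have h4 := h1.add_mul_left_left N
    have e : N ^ 4 - 8 * N * D ^ 3 = -9 * (N * D ^ 3) + (N ^ 3 + D ^ 3) * N := by ring
    rw [e]; exact h4
  exact IsCoprime.mul_right (IsCoprime.mul_right (coprime_of_unit u4).symm a1) a2

lemma degree_step (h2 : (2 : K) ≠ 0) {N D : K[X]} {r : ℕ} (hr : 1 ≤ r) (hN : N.natDegree = r)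
    (hD : D.natDegree < r) (hD0 : D ≠ 0) :
    N ^ 3 + D ^ 3 ≠ 0 ∧ (N ^ 4 - 8 * N * D ^ 3).natDegree = 4 * r ∧
      (4 * D * (N ^ 3 + D ^ 3)).natDegree < 4 * r ∧ 4 * D * (N ^ 3 + D ^ 3) ≠ 0 := by
  have d1 : (N ^ 3 + D ^ 3).natDegree = 3 * r := by
    rw [natDegree_add_eq_left_of_natDegree_lt]
    · rw [natDegree_pow, hN]
    · rw [natDegree_pow, natDegree_pow, hN]; omega
  have d2 : N ^ 3 + D ^ 3 ≠ 0 := by
    intro h
    rw [h, natDegree_zero] at d1
    omega
  have h4 : (4 : K) ≠ 0 := by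
    have : (4 : K) = 2 * 2 := by norm_num
    rw [this]; exact mul_ne_zero h2 h2
  have e4 : (4 : K[X]) = C (4 : K) := (map_ofNat C 4).symm
  have e8 : (8 : K[X]) = C (8 : K) := (map_ofNat C 8).symm
  refine ⟨d2, ?_, ?_, ?_⟩
  · rw [natDegree_sub_eq_left_of_natDegree_lt]
    · rw [natDegree_pow, hN]
    · rw [natDegree_pow, hN, e8, mul_assoc]
      refine lt_of_le_of_lt (natDegree_C_mul_le _ _) ?_
      refine lt_of_le_of_lt natDegree_mul_le ?_
      rw [natDegree_pow, hN]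
      omega
  · rw [e4, mul_assoc]
    refine lt_of_le_of_lt (natDegree_C_mul_le _ _) ?_
    refine lt_of_le_of_lt natDegree_mul_le ?_
    rw [d1]; omega
  · refine mul_ne_zero (mul_ne_zero ?_ hD0) d2
    rw [e4]; exact C_ne_zero.mpr h4

lemma doubling_formula (h2 : (2 : F) ≠ 0) {Q : (Ek (kk K F)).Point} (hQ : Q ≠ 0) {N D : K[X]}
    (hD0 : D ≠ 0) (hND : N ^ 3 + D ^ 3 ≠ 0)
    (hx : px Q * algebraMap K[X] F D = algebraMap K[X] F (ss K) * algebraMap K[X] F N) :
    Q + Q ≠ 0 ∧ px (Q + Q) * algebraMap K[X] F (4 * D * (N ^ 3 + D ^ 3))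
      = algebraMap K[X] F (ss K) * algebraMap K[X] F (N ^ 4 - 8 * N * D ^ 3) := by
  have hs := alg_ne (F := F) (ss_ne (K := K))
  have hd := alg_ne (F := F) hD0
  have hnd := alg_ne (F := F) hND
  have hc := curve_eq hQ
  rw [map_add, map_pow, map_pow] at hnd
  simp only [map_mul, map_sub, map_add, map_pow, map_ofNat]
  set s := algebraMap K[X] F (ss K)
  set n := algebraMap K[X] F N
  set d := algebraMap K[X] F D
  have hk : kk K F = s ^ 3 := rfl
  have hxd : px Q = s * n / d := by field_simp; exact hx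
  have hy2 : py Q ^ 2 = s ^ 3 * (n ^ 3 + d ^ 3) / d ^ 3 := by
    rw [hc, hxd, hk]; field_simp
  have hy : py Q ≠ 0 := by
    intro h
    rw [h] at hy2
    have : s ^ 3 * (n ^ 3 + d ^ 3) / d ^ 3 ≠ 0 :=
      div_ne_zero (mul_ne_zero (pow_ne_zero _ hs) hnd) (pow_ne_zero _ hd)
    apply this
    rw [← hy2]; ring
  obtain ⟨hne, hX, -⟩ := doubling h2 hQ hy
  refine ⟨hne, ?_⟩
  have hX' : px (Q + Q) = 9 * px Q ^ 4 / (4 * py Q ^ 2) - 2 * px Q := by
    rw [hX]
    have h4 : (4 : F) = 2 * 2 := by norm_num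
    rw [h4]
    field_simp
    ring
  rw [hX', hy2, hxd]
  have h4 : (4 : F) ≠ 0 := by
    have : (4 : F) = 2 * 2 := by norm_num
    rw [this]; exact mul_ne_zero h2 h2
  field_simp
  ring

lemma two_pow_mult (h2K : (2 : K) ≠ 0) (h3K : (3 : K) ≠ 0) (h2 : (2 : F) ≠ 0) (h3 : (3 : F) ≠ 0)
    (m : ℕ) : ∃ N D : K[X], IsCoprime N D ∧ N.natDegree = 4 ^ m ∧ D.natDegree < 4 ^ m ∧ D ≠ 0 ∧
      (2 ^ m) • PP (K := K) h2 h3 ≠ 0 ∧
      px ((2 ^ m) • PP (K := K) h2 h3) * algebraMap K[X] F D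
        = algebraMap K[X] F (ss K) * algebraMap K[X] F N := by
  induction m with
  | zero =>
    refine ⟨X, 1, isCoprime_one_right, by simp, by simp, one_ne_zero, ?_, ?_⟩
    · rw [pow_zero, one_smul]
      exact Affine.Point.some_ne_zero _
    · rw [pow_zero, one_smul, map_one, mul_one, ← map_mul]
      rfl
  | succ m ih =>
    obtain ⟨N, D, hcop, hN, hD, hD0, hne, hx⟩ := ih
    obtain ⟨d1, d2, d3, d4⟩ := degree_step h2K (r := 4 ^ m) (Nat.one_le_pow _ _ (by norm_num)) hN hD hD0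
    obtain ⟨e1, e2⟩ := doubling_formula h2 hne hD0 d1 hx
    have e : (2 ^ (m + 1)) • PP (K := K) (F := F) h2 h3
        = (2 ^ m) • PP h2 h3 + (2 ^ m) • PP h2 h3 := by
      rw [← add_nsmul]; congr 1; ring
    have e4 : 4 ^ (m + 1) = 4 * 4 ^ m := by ring
    rw [e, e4]
    exact ⟨_, _, coprime_step h2K h3K hcop, d2, d3, d4, e1, e2⟩

lemma two_pow_inj (h2K : (2 : K) ≠ 0) (h3K : (3 : K) ≠ 0) (h2 : (2 : F) ≠ 0)
    (h3 : (3 : F) ≠ 0) : Function.Injective (fun m : ℕ => (2 ^ m) • PP (K := K) h2 h3) := by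
  intro m m' h
  simp only at h
  obtain ⟨N, D, hcop, hN, hD, hD0, hne, hx⟩ := two_pow_mult h2K h3K h2 h3 m
  obtain ⟨N', D', hcop', hN', hD', hD0', hne', hx'⟩ := two_pow_mult h2K h3K h2 h3 m'
  have hs := alg_ne (F := F) (ss_ne (K := K))
  have h1 : N * D' = N' * D := by
    apply IsFractionRing.injective K[X] F
    rw [map_mul, map_mul]
    apply mul_left_cancel₀ hs
    rw [← h] at hx'
    linear_combination (-(algebraMap K[X] F D')) * hx + (algebraMap K[X] F D) * hx'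
  have hN0 : N ≠ 0 := by
    rintro rfl
    rw [natDegree_zero] at hN
    have : 0 < 4 ^ m := by positivity
    omega
  have hN0' : N' ≠ 0 := by
    rintro rfl
    rw [natDegree_zero] at hN'
    have : 0 < 4 ^ m' := by positivity
    omega
  have a1 : N ∣ N' := hcop.dvd_of_dvd_mul_right (Dvd.intro _ h1)
  have a2 : N' ∣ N := hcop'.dvd_of_dvd_mul_right (Dvd.intro _ h1.symm)
  have b1 := natDegree_le_of_dvd a1 hN0'
  have b2 := natDegree_le_of_dvd a2 hN0
  rw [hN, hN'] at b1 b2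
  exact Nat.pow_right_injective (le_refl _ |>.trans (by norm_num : 2 ≤ 4)) (le_antisymm b1 b2)

lemma inf_order (h2K : (2 : K) ≠ 0) (h3K : (3 : K) ≠ 0) (h2 : (2 : F) ≠ 0)
    (h3 : (3 : F) ≠ 0) (n : ℤ) (hn : n ≠ 0) : n • PP (K := K) h2 h3 ≠ 0 := by
  intro h
  have hfin : IsOfFinAddOrder (PP (K := K) h2 h3) :=
    isOfFinAddOrder_iff_zsmul_eq_zero.mpr ⟨n, hn, h⟩
  have hfin2 := finite_zmultiples.mpr hfin
  refine Set.infinite_of_injective_forall_mem (two_pow_inj h2K h3K h2 h3) (fun m => ?_) hfin2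
  exact AddSubgroup.nsmul_mem_zmultiples _ _

end dbl

section orbit

open MvPolynomial

variable {K : Type*} [Field K] {F : Type*} [Field F] [DecidableEq F] [Algebra K F]
  {k : F} {P : (Ek k).Point} {f : Fin 4 → MvPolynomial (Fin 4) K} {q : MvPolynomial (Fin 4) K}

lemma special_orbit (h2 : (2 : F) ≠ 0) (h3 : (3 : F) ≠ 0) (hk : k ≠ 0) (hP : px P ≠ 0)
    (hinf : ∀ n : ℤ, n ≠ 0 → n • P ≠ 0)
    (hf : ∀ i, FF (X : Fin 4 → MvPolynomial (Fin 4) K) i = q * f i) {w : Fin 4 → F}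
    (h0 : Co ((2 : ℤ) • P) ((3 : ℤ) • P) ((-4 : ℤ) • P) w) (n : ℕ) :
    Co ((2 : ℤ) • P) ((2 * n + 3 : ℤ) • P) ((-(n + 2) ^ 2 : ℤ) • P)
      (fun j => aeval w (iter (N := 3) f n j)) := by
  induction n with
  | zero =>
    have e : (fun j => aeval w (iter (N := 3) f 0 j)) = w := by
      funext j
      exact aeval_X w j
    rw [e]
    convert h0 using 2 <;> norm_num
  | succ n ih =>
    have hn0 : (0 : ℤ) ≤ n := Int.natCast_nonneg n
    have nd : ND3 ((2 : ℤ) • P) ((2 * n + 3 : ℤ) • P) ((-(n + 2) ^ 2 : ℤ) • P) := by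
      refine nd3_multiples h2 h3 hk hP hinf ?_ ?_ ?_ ?_ ?_ ?_ ?_ ?_ ?_ <;> intro h <;> nlinarith
    have a1 : -((2 : ℤ) • P + (2 * n + 3 : ℤ) • P) = (-(2 * n + 5) : ℤ) • P := by
      rw [← add_zsmul, ← neg_zsmul]; congr 1; ring
    have a2 : -(-((2 : ℤ) • P + (2 * n + 3 : ℤ) • P) + (-(n + 2) ^ 2 : ℤ) • P)
        = ((n + 3) ^ 2 : ℤ) • P := by
      rw [a1, ← add_zsmul, ← neg_zsmul]; congr 1; ring
    have nd1 : ND3 ((2 : ℤ) • P) (-((2 : ℤ) • P + (2 * n + 3 : ℤ) • P))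
        ((-(n + 2) ^ 2 : ℤ) • P) := by
      rw [a1]
      have hcase : (n : ℤ) = 0 ∨ (1 : ℤ) ≤ n := by omega
      refine nd3_multiples h2 h3 hk hP hinf ?_ ?_ ?_ ?_ ?_ ?_ ?_ ?_ ?_ <;> intro h <;>
        rcases hcase with h0 | h0 <;> nlinarith
    have nd2 : ND3 (-((2 : ℤ) • P + (2 * n + 3 : ℤ) • P))
        (-(-((2 : ℤ) • P + (2 * n + 3 : ℤ) • P) + (-(n + 2) ^ 2 : ℤ) • P)) ((2 : ℤ) • P) := by
      rw [a2, a1]
      refine nd3_multiples h2 h3 hk hP hinf ?_ ?_ ?_ ?_ ?_ ?_ ?_ ?_ ?_ <;> intro h <;> nlinarith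
    have nd3 : ND3 ((2 : ℤ) • P) ((2 * (n + 1 : ℕ) + 3 : ℤ) • P)
        ((-((n + 1 : ℕ) + 2) ^ 2 : ℤ) • P) := by
      push_cast
      refine nd3_multiples h2 h3 hk hP hinf ?_ ?_ ?_ ?_ ?_ ?_ ?_ ?_ ?_ <;> intro h <;> nlinarith
    have c := step_core nd ih nd1 nd2
    have b1 : (2 : ℤ) • P + (2 * n + 3 : ℤ) • P = (2 * (n + 1 : ℕ) + 3 : ℤ) • P := by
      rw [← add_zsmul]; congr 1; push_cast; ring
    have b2 : (-(n + 2) ^ 2 : ℤ) • P - (2 * (n + 1 : ℕ) + 3 : ℤ) • P
        = (-((n + 1 : ℕ) + 2) ^ 2 : ℤ) • P := by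
      rw [sub_eq_add_neg, ← neg_zsmul, ← add_zsmul]; congr 1; push_cast; ring
    rw [b1, b2] at c
    have := Co_f hf c (c.zero_ne nd3)
    convert this using 1
    funext j
    have h1 : iter (N := 3) f (n + 1) j = bind₁ (iter (N := 3) f n) (f j) := rfl
    rw [h1, aeval_bind₁]

end orbit

section final

open MvPolynomial

variable {K : Type*} [Field K] {f : Fin 4 → MvPolynomial (Fin 4) K}
  {q : MvPolynomial (Fin 4) K}

lemma natDegree_aeval_le (w : Fin 4 → Polynomial K) {Δ : ℕ} (hw : ∀ j, (w j).natDegree ≤ Δ)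
    (g : MvPolynomial (Fin 4) K) : (aeval w g).natDegree ≤ g.totalDegree * Δ := by
  rw [aeval_def, eval₂_eq]
  refine Polynomial.natDegree_sum_le_of_forall_le _ _ fun d hd => ?_
  rw [← Polynomial.C_eq_algebraMap]
  refine (Polynomial.natDegree_C_mul_le _ _).trans ?_
  refine (Polynomial.natDegree_prod_le _ _).trans ?_
  calc ∑ i ∈ d.support, (w i ^ d i).natDegree ≤ ∑ i ∈ d.support, d i * Δ := by
        refine Finset.sum_le_sum fun i _ => ?_
        exact (Polynomial.natDegree_pow_le).trans (Nat.mul_le_mul le_rfl (hw i))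
    _ = (d.sum fun _ e => e) * Δ := by rw [← Finset.sum_mul]; rfl
    _ ≤ g.totalDegree * Δ := Nat.mul_le_mul (le_totalDegree hd) le_rfl

variable {F : Type*} [Field F] [DecidableEq F] [Algebra (Polynomial K) F]
  [IsFractionRing (Polynomial K) F] [Algebra K F] [IsScalarTower K (Polynomial K) F]

lemma exists_start {k : F} {Q1 Q2 Q3 : (Ek k).Point} (hnd : ND3 Q1 Q2 Q3) :
    ∃ w : Fin 4 → Polynomial K, Co Q1 Q2 Q3 (fun j => algebraMap (Polynomial K) F (w j)) := by
  have hx2 : px Q2 - px Q1 ≠ 0 := sub_ne_zero.mpr hnd.x12.symm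
  have hx3 : px Q3 - px Q1 ≠ 0 := sub_ne_zero.mpr hnd.x13.symm
  obtain ⟨l, hl⟩ : ∃ l, l * (px Q2 - px Q1) = py Q2 - py Q1 :=
    ⟨(py Q2 - py Q1) / (px Q2 - px Q1), div_mul_cancel₀ _ hx2⟩
  obtain ⟨m, hm⟩ : ∃ m, m * (px Q3 - px Q1) = py Q3 - py Q1 :=
    ⟨(py Q3 - py Q1) / (px Q3 - px Q1), div_mul_cancel₀ _ hx3⟩
  let v : Fin 4 → F := ![1 * (l * px Q1), 1 * (l * px Q2), 1 * (l * px Q3), 1 * (m * px Q1)]
  have hv : Co Q1 Q2 Q3 v := ⟨1, l, m, one_ne_zero, hl, hm, rfl, rfl, rfl, rfl⟩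
  obtain ⟨b, hb⟩ := IsLocalization.exist_integer_multiples_of_finite
    (nonZeroDivisors (Polynomial K)) v
  choose w hw using hb
  refine ⟨w, hv.scale (a := algebraMap (Polynomial K) F b) ?_ fun j => ?_⟩
  · exact alg_ne (nonZeroDivisors.ne_zero b.2)
  · rw [hw j, Algebra.smul_def]

lemma iterate_degree_ge (h2K : (2 : K) ≠ 0) (h3K : (3 : K) ≠ 0)
    (hf : ∀ i, FF (X : Fin 4 → MvPolynomial (Fin 4) K) i = q * f i) :
    ∃ Δ : ℕ, ∀ m n e g, n + 2 = 2 ^ m → IsIterate (N := 3) f n e g →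
      (n + 2) ^ 4 ≤ e * Δ + 4 := by
  classical
  let F := RatFunc K
  have h2 : (2 : F) ≠ 0 := by
    have := (map_ne_zero (algebraMap K F)).mpr h2K
    rwa [map_ofNat] at this
  have h3 : (3 : F) ≠ 0 := by
    have := (map_ne_zero (algebraMap K F)).mpr h3K
    rwa [map_ofNat] at this
  set P : (Ek (kk K F)).Point := PP (K := K) (F := F) h2 h3 with hPdef
  have hinf : ∀ n : ℤ, n ≠ 0 → n • P ≠ 0 := inf_order h2K h3K h2 h3
  have hP : px P ≠ 0 := by
    have : px P = algebraMap (Polynomial K) F (ss K * Polynomial.X) := rfl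
    rw [this]
    exact alg_ne (mul_ne_zero ss_ne Polynomial.X_ne_zero)
  have hk : kk K F ≠ 0 := kk_ne
  have nd : ND3 ((2 : ℤ) • P) ((3 : ℤ) • P) ((-4 : ℤ) • P) :=
    nd3_multiples h2 h3 hk hP hinf (by norm_num) (by norm_num) (by norm_num) (by norm_num)
      (by norm_num) (by norm_num) (by norm_num) (by norm_num) (by norm_num)
  obtain ⟨w, hw⟩ := exists_start (K := K) nd
  have horb := special_orbit h2 h3 hk hP hinf hf hw
  set Δ := Finset.univ.sup fun j => (w j).natDegree with hΔ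
  have hwΔ : ∀ j, (w j).natDegree ≤ Δ := fun j =>
    Finset.le_sup (f := fun j => (w j).natDegree) (Finset.mem_univ j)
  refine ⟨Δ, fun m n e g hnm hg => ?_⟩
  obtain ⟨Q, hQ0, hQ⟩ := hg.eq
  have co := horb n
  obtain ⟨N1, D1, hc1, hN1, hD1, hD10, hne1, hx1⟩ := two_pow_mult (F := F) h2K h3K h2 h3 1
  obtain ⟨N2, D2, hc2, hN2, hD2, hD20, hne2, hx2⟩ := two_pow_mult (F := F) h2K h3K h2 h3 (2 * m)
  have q1 : (2 : ℤ) • P = (2 ^ 1) • P := by
    rw [← natCast_zsmul]; norm_num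
  have q3 : px ((-(n + 2) ^ 2 : ℤ) • P) = px ((2 ^ (2 * m)) • P) := by
    rw [neg_zsmul, px_neg, ← natCast_zsmul]
    congr 2
    have : ((n : ℤ) + 2) = 2 ^ m := by exact_mod_cast hnm
    rw [this]; push_cast; ring
  obtain ⟨c, l, μ, hc, hl, hμ, e0, e1, e2, e3⟩ := co
  have ev : ∀ j, aeval (fun j => algebraMap (Polynomial K) F (w j)) (iter (N := 3) f n j)
      = aeval (fun j => algebraMap (Polynomial K) F (w j)) Q
        * algebraMap (Polynomial K) F (aeval w (g j)) := by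
    intro j
    rw [hQ j, map_mul]
    congr 1
    rw [MvPolynomial.map_aeval, aeval_def, IsScalarTower.algebraMap_eq K (Polynomial K) F]
    rfl
  simp only [ev] at e0 e2
  set a := aeval (fun j => algebraMap (Polynomial K) F (w j)) Q with ha
  obtain ⟨G0, hG0⟩ : ∃ G0, G0 = aeval w (g 0) := ⟨_, rfl⟩
  obtain ⟨G2, hG2⟩ : ∃ G2, G2 = aeval w (g 2) := ⟨_, rfl⟩
  rw [← hG0] at e0
  rw [← hG2] at e2
  have hl0 : l ≠ 0 := by
    intro hl0
    rw [hl0, zero_mul] at hl
    have hn0 : (0 : ℤ) ≤ n := Int.natCast_nonneg n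
    refine py_inj h3 hP hinf (a := 2) (b := 2 * n + 3) (by norm_num) ?_ ?_
      (by linear_combination hl)
    · omega
    · omega
  have hx2P : px ((2 : ℤ) • P) ≠ 0 := nd.x1
  have h10 : a * algebraMap (Polynomial K) F G0 ≠ 0 := by
    rw [e0]; exact mul_ne_zero hc (mul_ne_zero hl0 hx2P)
  have ha0 : a ≠ 0 := left_ne_zero_of_mul h10
  have hG00 : G0 ≠ 0 := by
    rintro rfl
    rw [map_zero, mul_zero] at h10
    exact h10 rfl
  have s1 : algebraMap (Polynomial K) F G2 * px ((2 : ℤ) • P)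
      = algebraMap (Polynomial K) F G0 * px ((-(n + 2) ^ 2 : ℤ) • P) := by
    apply mul_left_cancel₀ ha0
    linear_combination (px ((2 : ℤ) • P)) * e2 - (px ((-(n + 2) ^ 2 : ℤ) • P)) * e0
  rw [q3, q1] at s1
  have hs := alg_ne (F := F) (ss_ne (K := K))
  have s2 : G2 * N1 * D2 = G0 * N2 * D1 := by
    apply IsFractionRing.injective (Polynomial K) F
    apply mul_left_cancel₀ hs
    simp only [map_mul]
    linear_combination (algebraMap (Polynomial K) F D1 * algebraMap (Polynomial K) F D2) * s1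
      - (algebraMap (Polynomial K) F G2 * algebraMap (Polynomial K) F D2) * hx1
      + (algebraMap (Polynomial K) F G0 * algebraMap (Polynomial K) F D1) * hx2
  have hN20 : N2 ≠ 0 := by
    rintro rfl
    rw [Polynomial.natDegree_zero] at hN2
    have : 0 < 4 ^ (2 * m) := by positivity
    omega
  have hne : G2 * N1 ≠ 0 := by
    intro h
    rw [h, zero_mul] at s2
    exact mul_ne_zero (mul_ne_zero hG00 hN20) hD10 s2.symm
  have hdvd : N2 ∣ G2 * N1 := by
    refine hc2.dvd_of_dvd_mul_right ?_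
    rw [s2]
    exact Dvd.intro_left (G0 * D1) (by ring)
  have h5 := Polynomial.natDegree_le_of_dvd hdvd hne
  have h6 := Polynomial.natDegree_mul_le (p := G2) (q := N1)
  have h7 := natDegree_aeval_le w hwΔ (g 2)
  have h8 := (hg.isMap.homog 2).totalDegree_le
  rw [← hG2] at h7
  rw [hN2] at h5
  rw [hN1] at h6
  have h9 : (n + 2) ^ 4 = 4 ^ (2 * m) := by
    rw [hnm, ← pow_mul, mul_comm m 4, pow_mul, pow_mul]
    norm_num
  rw [h9]
  have h11 : (g 2).totalDegree * Δ ≤ e * Δ := Nat.mul_le_mul h8 le_rfl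
  omega

end final

end partLower

/-! ### The result -/

section partFinal

open MvPolynomial Filter Topology

lemma eval_Dh {K : Type*} [Field K] (w : Fin 4 → K) (v : Fin 4 → MvPolynomial (Fin 4) K) :
    eval w (Dh v) = Dh (fun j => eval w (v j)) := map_Dh (eval w) v

lemma DhX_ne {K : Type*} [Field K] : Dh (X : Fin 4 → MvPolynomial (Fin 4) K) ≠ 0 := by
  refine poly_ne_zero_of_eval ![1, 0, 0, 0] ?_
  rw [eval_Dh]
  simp [Dh]

lemma eval_Kh {K : Type*} [Field K] (w : Fin 4 → K) (v : Fin 4 → MvPolynomial (Fin 4) K) :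
    eval w (Kh v) = Kh (fun j => eval w (v j)) := map_Kh (eval w) v

lemma KhX_ne {K : Type*} [Field K] (h2 : (2 : K) ≠ 0) :
    Kh (X : Fin 4 → MvPolynomial (Fin 4) K) ≠ 0 := by
  refine poly_ne_zero_of_eval ![1, 0, 0, -1] ?_
  rw [eval_Kh]
  simp only [eval_X]
  have e : Kh (![1, 0, 0, -1] : Fin 4 → K) = 2 * 2 * 2 * 2 := by
    simp [Kh, Nh, Dh]
    norm_num
  rw [e]
  exact mul_ne_zero (mul_ne_zero (mul_ne_zero h2 h2) h2) h2

/-- the two degree estimates -/
lemma main_estimates {K : Type*} [Field K] (h2 : (2 : K) ≠ 0) (h3 : (3 : K) ≠ 0) :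
    ∃ (d : ℕ) (f : Fin (3 + 1) → MvPolynomial (Fin (3 + 1)) K), IsMap d f ∧
      AlgebraicIndependent K f ∧
      (∃ C : ℕ, ∀ n e g, IsIterate f n e g → e ≤ C * (n + 1) ^ 16) ∧
      (∃ Δ : ℕ, ∀ m n e g, n + 2 = 2 ^ m → IsIterate f n e g → (n + 2) ^ 4 ≤ e * Δ + 4) := by
  classical
  have hFh : ∀ j, (FF (X : Fin 4 → MvPolynomial (Fin 4) K) j).IsHomogeneous
      (5 * (3 * (2 * (4 * (2 * (3 * (4 * 1))))))) := hFF X_homog
  have hFi : AlgebraicIndependent K (FF (X : Fin 4 → MvPolynomial (Fin 4) K)) :=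
    indep_FF (algebraicIndependent_X (Fin 4) K)
  obtain ⟨e, f, q, hmap, hq0, hqh, hf⟩ :=
    exists_reduced (N := 3) hFh ⟨0, hFi.ne_zero 0⟩
  have he : 1 ≤ e := degree_pos_of_indep (N := 3) (by norm_num) hFi hmap hf
  have hfi : AlgebraicIndependent K f := by
    have h1 := indep_mul_iff (v := f) hmap.homog he hqh hq0
    rw [← h1]
    have : (fun i => q * f i) = FF (X : Fin 4 → MvPolynomial (Fin 4) K) :=
      funext fun i => (hf i).symm
    rw [this]
    exact hFi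
  refine ⟨e, f, hmap, hfi, ?_, iterate_degree_ge h2 h3 hf⟩
  let L := FractionRing (MvPolynomial (Fin 4) K)
  have hinj : Function.Injective (algebraMap (MvPolynomial (Fin 4) K) L) :=
    IsFractionRing.injective _ _
  have h2L : (2 : L) ≠ 0 := by
    have := (map_ne_zero (algebraMap K L)).mpr h2
    rwa [map_ofNat] at this
  have h3L : (3 : L) ≠ 0 := by
    have := (map_ne_zero (algebraMap K L)).mpr h3
    rwa [map_ofNat] at this
  have hv : AlgebraicIndependent K
      (fun j => algebraMap (MvPolynomial (Fin 4) K) L (X j)) :=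
    indep_algebraMap (algebraicIndependent_X (Fin 4) K)
  have hD : Dh (fun j => algebraMap (MvPolynomial (Fin 4) K) L (X j)) ≠ 0 := by
    rw [← map_Dh]
    exact (map_ne_zero_iff _ hinj).mpr DhX_ne
  have hKh : Kh (fun j => algebraMap (MvPolynomial (Fin 4) K) L (X j)) ≠ 0 := by
    rw [← map_Kh]
    exact (map_ne_zero_iff _ hinj).mpr (KhX_ne h2)
  obtain ⟨k, P1, P2, P3, hco⟩ := exists_triple h2L h3L (NDv_of_indep hv) hD hKh
  exact iterate_degree_le hf hfi hco

lemma tendsto_root {D : ℕ → ℕ} {C : ℕ} (hpos : ∀ n, 1 ≤ D n)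
    (hC : ∀ n, D n ≤ C * (n + 1) ^ 16) :
    Tendsto (fun n : ℕ => (D n : ℝ) ^ ((1 : ℝ) / n)) atTop (𝓝 1) := by
  have hC1 : (1 : ℝ) ≤ C := by
    have h1 := hpos 0
    have h2 := hC 0
    simp only [zero_add, one_pow, mul_one] at h2
    exact_mod_cast h1.trans h2
  -- upper comparison: (C * 2^16 * n^16)^(1/n)
  have hup : Tendsto (fun n : ℕ => ((C : ℝ) * 2 ^ 16) ^ ((1 : ℝ) / n)
      * ((n : ℝ) ^ ((1 : ℝ) / n)) ^ 16) atTop (𝓝 1) := by
    have h1 : Tendsto (fun n : ℕ => ((C : ℝ) * 2 ^ 16) ^ ((1 : ℝ) / n)) atTop (𝓝 1) := by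
      have h0 : Tendsto (fun n : ℕ => (1 : ℝ) / n) atTop (𝓝 0) := tendsto_one_div_atTop_nhds_zero_nat
      have hc : Continuous fun x : ℝ => ((C : ℝ) * 2 ^ 16) ^ x :=
        Real.continuous_const_rpow (by positivity)
      have := (hc.tendsto 0).comp h0
      rw [Real.rpow_zero] at this
      exact this
    have h2 : Tendsto (fun n : ℕ => (n : ℝ) ^ ((1 : ℝ) / n)) atTop (𝓝 1) :=
      tendsto_rpow_div.comp tendsto_natCast_atTop_atTop
    simpa using h1.mul (h2.pow 16)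
  refine tendsto_of_tendsto_of_tendsto_of_le_of_le' tendsto_const_nhds hup ?_ ?_
  · refine Eventually.of_forall fun n => ?_
    refine Real.one_le_rpow ?_ (by positivity)
    exact_mod_cast hpos n
  · filter_upwards [eventually_ge_atTop 1] with n hn
    have hn0 : (0 : ℝ) ≤ n := Nat.cast_nonneg n
    have e1 : ((n : ℝ) ^ ((1 : ℝ) / n)) ^ 16 = ((n : ℝ) ^ 16) ^ ((1 : ℝ) / n) := by
      rw [← Real.rpow_natCast, ← Real.rpow_natCast, ← Real.rpow_mul hn0, ← Real.rpow_mul hn0,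
        mul_comm]
    rw [e1, ← Real.mul_rpow (by positivity) (by positivity)]
    refine Real.rpow_le_rpow (Nat.cast_nonneg _) ?_ (by positivity)
    have h1 : (D n : ℝ) ≤ C * ((n : ℝ) + 1) ^ 16 := by exact_mod_cast hC n
    have h2 : ((n : ℝ) + 1) ^ 16 ≤ (2 * n) ^ 16 := by
      have : (1 : ℝ) ≤ n := by exact_mod_cast hn
      gcongr
      linarith
    calc (D n : ℝ) ≤ C * ((n : ℝ) + 1) ^ 16 := h1
      _ ≤ C * (2 * n) ^ 16 := by gcongr
      _ = C * 2 ^ 16 * n ^ 16 := by ring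

theorem result (K : Type*) [Field K] (h2 : (2 : K) ≠ 0) (h3 : (3 : K) ≠ 0) :
    ∃ (d : ℕ) (f : Fin (3 + 1) → MvPolynomial (Fin (3 + 1)) K),
      IsMap d f ∧ AlgebraicIndependent K f ∧
      ∃ (D : ℕ → ℕ) (δ : ℝ),
        (∀ n, ∃ g, IsIterate f n (D n) g) ∧ (∀ n e g, IsIterate f n e g → e = D n) ∧
        Tendsto (fun n : ℕ => (D n : ℝ) ^ ((1 : ℝ) / n)) atTop (𝓝 δ) ∧ δ = 1 ∧
        (∃ c : ℝ, 0 < c ∧ ∀ N : ℕ, ∃ n : ℕ, N ≤ n ∧ c * (n : ℝ) ^ 4 ≤ D n) ∧
        ∀ ℓ : ℕ, ℓ ≤ 3 → ¬ Asymp (fun n => (D n : ℝ)) (fun n => (n : ℝ) ^ ℓ * δ ^ n) := by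
  obtain ⟨d, f, hmap, hfi, ⟨C, hC⟩, ⟨Δ, hΔ⟩⟩ := main_estimates h2 h3
  choose D g hD using fun n => exists_iterate (N := 3) hmap.homog hfi n
  have hpos : ∀ n, 1 ≤ D n := by
    intro n
    obtain ⟨q, hq, hqe⟩ := (hD n).eq
    exact degree_pos_of_indep (N := 3) (by norm_num) (iter_indep hfi n) (hD n).isMap hqe
  have hlow : ∀ m n : ℕ, n + 2 = 2 ^ m → ((n : ℝ) + 2) ^ 4 ≤ D n * Δ + 4 := by
    intro m n hmn
    exact_mod_cast hΔ m n (D n) (g n) hmn (hD n)
  have hΔ0 : (0 : ℝ) ≤ Δ := Nat.cast_nonneg _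
  refine ⟨d, f, hmap, hfi, D, 1, fun n => ⟨g n, hD n⟩, fun n e g' h => h.unique (hD n),
    tendsto_root hpos fun n => hC n (D n) (g n) (hD n), rfl, ?_, ?_⟩
  · refine ⟨1 / (Δ + 4), by positivity, fun N => ?_⟩
    have hN : N + 2 ≤ 2 ^ (N + 2) := (Nat.lt_two_pow_self).le
    obtain ⟨n, hn⟩ : ∃ n, n + 2 = 2 ^ (N + 2) := ⟨2 ^ (N + 2) - 2, by omega⟩
    refine ⟨n, by omega, ?_⟩
    have h1 := hlow (N + 2) n hn
    have h4 : (1 : ℝ) ≤ D n := by exact_mod_cast hpos n
    have hn0 : (0 : ℝ) ≤ n := Nat.cast_nonneg n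
    have h5 : (n : ℝ) ^ 4 ≤ ((n : ℝ) + 2) ^ 4 := by gcongr; linarith
    rw [div_mul_eq_mul_div, one_mul, div_le_iff₀ (by positivity)]
    nlinarith
  · rintro ℓ hℓ ⟨c₁, c₂, c₃, hc₁, hc₂, hc₃, h⟩
    obtain ⟨M, hM⟩ := exists_nat_gt (Δ / c₁ + 4)
    obtain ⟨M', hM'⟩ := exists_nat_gt c₃
    set m := M + M' + 2 with hm
    have hm2 : m < 2 ^ m := Nat.lt_two_pow_self
    set n := 2 ^ m - 2 with hn
    have hmn : n + 2 = 2 ^ m := by omega
    have h1 := hlow m n hmn
    have hc₃n : c₃ ≤ (n : ℝ) := by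
      have : M' ≤ n := by omega
      have : (M' : ℝ) ≤ n := by exact_mod_cast this
      linarith
    obtain ⟨h6, -⟩ := h n hc₃n
    simp only [one_pow, mul_one] at h6
    have hn1 : (1 : ℝ) ≤ n := by
      have : 1 ≤ n := by omega
      exact_mod_cast this
    have h7 : (n : ℝ) ^ ℓ ≤ (n : ℝ) ^ 3 := pow_le_pow_right₀ hn1 hℓ
    have h8 : (D n : ℝ) ≤ (n : ℝ) ^ 3 / c₁ := by
      rw [le_div_iff₀ hc₁]; linarith
    have h9 : ((n : ℝ) + 2) ^ 4 ≤ (Δ / c₁) * ((n : ℝ) + 2) ^ 3 + 4 := by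
      calc ((n : ℝ) + 2) ^ 4 ≤ D n * Δ + 4 := h1
        _ ≤ ((n : ℝ) ^ 3 / c₁) * Δ + 4 := by gcongr
        _ = (Δ / c₁) * (n : ℝ) ^ 3 + 4 := by ring
        _ ≤ (Δ / c₁) * ((n : ℝ) + 2) ^ 3 + 4 := by gcongr; linarith
    have h10 : (Δ / c₁ + 4 : ℝ) < (n : ℝ) + 2 := by
      have : (M : ℝ) ≤ (n : ℝ) + 2 := by
        have : M ≤ n + 2 := by omega
        exact_mod_cast this
      linarith
    have h11 : (1 : ℝ) ≤ ((n : ℝ) + 2) ^ 3 := one_le_pow₀ (by linarith)
    nlinarith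

end partFinal

end Pool.Agent.Results.MP_55ef7c_ag.DegreeGrowth
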